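import Mathlib
import Pool.Agent.H47.Tri.Basic

/-! # MP_c17047_co, module B1: a lower bound for the number of cells -/

set_option autoImplicit false

namespace Pool.H47.Tri.B1

open Pool.H47.Tri Set Filter Topology

variable {n : ℕ}

/-- The height function. -/
def hh (c : ℝ) (y : Pt) : ℝ := y.1 + c * y.2

theorem hh_comb (c : ℝ) (p u v : Pt) (a b : ℝ) :
    hh c (p + a • (u - p) + b • (v - p)) = hh c p + a * (hh c u - hh c p)
      + b * (hh c v - hh c p) := by
  unfold hh
  simp
  ring

theorem exists_height {P : Fin n → Pt} (hinj : ∀ i j, i ≠ j → P i ≠ P j) :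
    ∃ c : ℝ, ∀ i j, i ≠ j → hh c (P i) ≠ hh c (P j) := by
  have hfin : Set.Finite (⋃ i : Fin n, ⋃ j : Fin n,
      {c : ℝ | i ≠ j ∧ hh c (P i) = hh c (P j)}) := by
    refine Set.finite_iUnion fun i => Set.finite_iUnion fun j => ?_
    apply Set.Subsingleton.finite
    rintro c ⟨hij, hc⟩ c' ⟨_, hc'⟩
    unfold hh at hc hc'
    have h1 : (c - c') * ((P i).2 - (P j).2) = 0 := by linarith
    rcases mul_eq_zero.mp h1 with h | h
    · linarith
    · exfalso
      apply hinj i j hij
      have h2 : (P i).2 = (P j).2 := by linarith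
      rw [h2] at hc
      exact Prod.ext (by linarith) h2
  obtain ⟨c, hc⟩ := hfin.infinite_compl.nonempty
  refine ⟨c, fun i j hij h => hc ?_⟩
  simp only [Set.mem_iUnion]
  exact ⟨i, j, hij, h⟩

open Classical in
/-- Upper ends of the lines through `p`. -/
noncomputable def U (P : Fin n → Pt) (c : ℝ) (p : Pt) : Finset (Fin n) :=
  Finset.univ.filter (fun w => hh c p < hh c (P w) ∧ ∃ i, i ≠ w ∧ orient (P i) (P w) p = 0)

theorem mem_U {P : Fin n → Pt} {c : ℝ} {p : Pt} {w : Fin n} :
    w ∈ U P c p ↔ hh c p < hh c (P w) ∧ ∃ i, i ≠ w ∧ orient (P i) (P w) p = 0 := by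
  simp [U]

theorem noncol (hn : 3 ≤ n) {P : Fin n → Pt} (hP : Ccw P) {c : ℝ} {p : Pt} (hp : p ∈ verts P)
    {w t : Fin n} (hw : w ∈ U P c p) (ht : t ∈ U P c p) (hwt : w ≠ t) :
    orient p (P w) (P t) ≠ 0 := by
  obtain ⟨hw1, i, hiw, hw2⟩ := mem_U.mp hw
  obtain ⟨ht1, _⟩ := mem_U.mp ht
  rcases hp with ⟨v, rfl⟩ | hp
  · have h1 : v ≠ w := fun h => by rw [h] at hw1; exact lt_irrefl _ hw1
    have h2 : v ≠ t := fun h => by rw [h] at ht1; exact lt_irrefl _ ht1
    exact orient_ne hP h1 h2 hwt
  · obtain ⟨s, hs0, hs1, hs⟩ := mem_openSegment_of_inside hn hP hiw hp.1 hw2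
    intro h0
    have h1 : orient p (P w) (P t) = (1 - s) * orient (P i) (P w) (P t) := by
      rw [hs]
      simp only [orient, Prod.fst_add, Prod.snd_add, Prod.smul_fst, Prod.smul_snd, smul_eq_mul]
      ring
    rw [h1] at h0
    have h2 : orient (P i) (P w) (P t) = 0 := by
      rcases mul_eq_zero.mp h0 with h | h
      · linarith
      · exact h
    have hit : i = t := by
      by_contra hit
      exact orient_ne hP hiw hit hwt h2
    subst hit
    have h3 : hh c p = (1 - s) * hh c (P i) + s * hh c (P w) := by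
      rw [hs]
      unfold hh
      simp only [Prod.fst_add, Prod.snd_add, Prod.smul_fst, Prod.smul_snd, smul_eq_mul]
      ring
    have h4 : 0 < (1 - s) * (hh c (P i) - hh c p) := mul_pos (by linarith) (by linarith)
    have h5 : 0 < s * (hh c (P w) - hh c p) := mul_pos hs0 (by linarith)
    linarith

/-- `x` is a point of the sector `(w, t)` at `p`, very close to the line through `p` and `P w`
and much closer to `p`. -/
structure Good (P : Fin n → Pt) (p : Pt) (w t : Fin n) (x : Pt) : Prop where
  off : x ∈ offLines P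
  s1 : ∀ i j, orient (P i) (P j) p ≠ 0 → 0 < orient (P i) (P j) p * orient (P i) (P j) x
  s2 : ∀ i j, orient (P i) (P j) p = 0 → orient (P i) (P j) (P w) ≠ 0 →
    0 < orient (P i) (P j) (P w) * orient (P i) (P j) x
  s3 : ∀ i j, orient (P i) (P j) p = 0 → orient (P i) (P j) (P w) = 0 →
    orient (P i) (P j) (P t) ≠ 0 → 0 < orient (P i) (P j) (P t) * orient (P i) (P j) x

theorem exists_small (P : Fin n → Pt) (a b : Pt) : ∃ d : ℝ, 0 < d ∧ ∀ i j : Fin n,
    orient (P i) (P j) a ≠ 0 →
    0 < orient (P i) (P j) a * orient (P i) (P j) ((1 - d) • a + d • b) := by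
  have h : ∀ᶠ d : ℝ in 𝓝 0, ∀ i j : Fin n, orient (P i) (P j) a ≠ 0 →
      0 < orient (P i) (P j) a * orient (P i) (P j) ((1 - d) • a + d • b) := by
    rw [eventually_all]
    intro i
    rw [eventually_all]
    intro j
    by_cases h0 : orient (P i) (P j) a = 0
    · exact Eventually.of_forall fun d h => absurd h0 h
    · have hc : Continuous fun d : ℝ =>
          orient (P i) (P j) a * orient (P i) (P j) ((1 - d) • a + d • b) := by
        refine continuous_const.mul ((continuous_orient _ _).comp ?_)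
        fun_prop
      have h1 : 0 < orient (P i) (P j) a * orient (P i) (P j) ((1 - (0 : ℝ)) • a + (0 : ℝ) • b) := by
        simp only [sub_zero, one_smul, zero_smul, add_zero]
        exact mul_self_pos.mpr h0
      filter_upwards [hc.continuousAt.eventually_const_lt h1] with d hd _
      exact hd
  obtain ⟨d, hd, hd0⟩ :=
    ((h.filter_mono nhdsWithin_le_nhds).and (self_mem_nhdsWithin (s := Set.Ioi (0 : ℝ)))).exists
  exact ⟨d, hd0, hd⟩

theorem three_on_line {a b x y z : Pt} (hab : a ≠ b) (hx : orient a b x = 0)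
    (hy : orient a b y = 0) (hz : orient a b z = 0) : orient x y z = 0 := by
  obtain ⟨r, rfl⟩ := exists_param hab hx
  obtain ⟨s, rfl⟩ := exists_param hab hy
  obtain ⟨t, rfl⟩ := exists_param hab hz
  simp only [orient, Prod.fst_add, Prod.snd_add, Prod.smul_fst, Prod.smul_snd, smul_eq_mul]
  ring

theorem verts_closedHull {P : Fin n → Pt} {p : Pt} (hp : p ∈ verts P) : p ∈ closedHull P := by
  rcases hp with ⟨v, rfl⟩ | hp
  · exact vertex_mem_closedHull P v
  · exact inside_sub_closedHull P hp.1

theorem exists_good (hn : 3 ≤ n) {P : Fin n → Pt} (hP : Ccw P) {c : ℝ} {p : Pt}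
    (hp : p ∈ verts P) {w t : Fin n} (hw : w ∈ U P c p) (ht : t ∈ U P c p) (hwt : w ≠ t) :
    ∃ x, Good P p w t x := by
  obtain ⟨d, hd0, hd⟩ := exists_small P (P w) (P t)
  obtain ⟨e, he0, he⟩ := exists_small P p ((1 - d) • P w + d • P t)
  set q := (1 - d) • P w + d • P t with hq
  set x := (1 - e) • p + e • q with hx
  have hlx : ∀ i j, orient (P i) (P j) p = 0 →
      orient (P i) (P j) x = e * orient (P i) (P j) q := by
    intro i j h
    rw [hx, orient_param, h]
    ring
  have hlq : ∀ i j, orient (P i) (P j) (P w) = 0 →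
      orient (P i) (P j) q = d * orient (P i) (P j) (P t) := by
    intro i j h
    rw [hq, orient_param, h]
    ring
  have s1 : ∀ i j, orient (P i) (P j) p ≠ 0 →
      0 < orient (P i) (P j) p * orient (P i) (P j) x := he
  have s2 : ∀ i j, orient (P i) (P j) p = 0 → orient (P i) (P j) (P w) ≠ 0 →
      0 < orient (P i) (P j) (P w) * orient (P i) (P j) x := by
    intro i j h1 h2
    rw [hlx i j h1]
    have := mul_pos he0 (hd i j h2)
    linarith
  have s3 : ∀ i j, orient (P i) (P j) p = 0 → orient (P i) (P j) (P w) = 0 →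
      orient (P i) (P j) (P t) ≠ 0 → 0 < orient (P i) (P j) (P t) * orient (P i) (P j) x := by
    intro i j h1 h2 h3
    rw [hlx i j h1, hlq i j h2]
    have := mul_pos (mul_pos he0 hd0) (mul_self_pos.mpr h3)
    linarith
  have hnc := noncol hn hP hp hw ht hwt
  have hne : ∀ i j : Fin n, i ≠ j → orient (P i) (P j) p = 0 → orient (P i) (P j) (P w) = 0 →
      orient (P i) (P j) (P t) ≠ 0 := by
    intro i j hij h1 h2 h3
    exact hnc (three_on_line (ccw_ne hn hP hij) h1 h2 h3)
  refine ⟨x, ⟨?_, ?_⟩, s1, s2, s3⟩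
  · rw [mem_inside]
    intro i j hij
    have hc1 := verts_closedHull hp i j hij
    have hc2 := vertex_mem_closedHull P w i j hij
    have hc3 := vertex_mem_closedHull P t i j hij
    by_cases h1 : orient (P i) (P j) p = 0
    · by_cases h2 : orient (P i) (P j) (P w) = 0
      · have h3 := hne i j hij.1 h1 h2
        exact (pos_iff_pos_of_mul_pos (s3 i j h1 h2 h3)).mp (lt_of_le_of_ne hc3 h3.symm)
      · exact (pos_iff_pos_of_mul_pos (s2 i j h1 h2)).mp (lt_of_le_of_ne hc2 (Ne.symm h2))
    · exact (pos_iff_pos_of_mul_pos (s1 i j h1)).mp (lt_of_le_of_ne hc1 (Ne.symm h1))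
  · intro i j hij h0
    by_cases h1 : orient (P i) (P j) p = 0
    · by_cases h2 : orient (P i) (P j) (P w) = 0
      · have := s3 i j h1 h2 (hne i j hij h1 h2)
        rw [h0, mul_zero] at this
        exact lt_irrefl _ this
      · have := s2 i j h1 h2
        rw [h0, mul_zero] at this
        exact lt_irrefl _ this
    · have := s1 i j h1
      rw [h0, mul_zero] at this
      exact lt_irrefl _ this

/-- A line through `p` and `P w`, in terms of `orient p (P w)`. -/
theorem exists_factor {P : Fin n → Pt} {c : ℝ} {p : Pt} {w : Fin n} (hw : w ∈ U P c p)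
    (hinj : ∀ i j, i ≠ j → P i ≠ P j) :
    ∃ i : Fin n, i ≠ w ∧ ∃ s : ℝ, s ≠ 0 ∧ ∀ y, orient (P i) (P w) y = s * orient p (P w) y := by
  obtain ⟨hw1, i, hiw, hw2⟩ := mem_U.mp hw
  have hpw : p ≠ P w := fun h => by rw [h] at hw1; exact lt_irrefl _ hw1
  have h1 : orient p (P w) (P i) = 0 := by
    have : orient p (P w) (P i) = - orient (P i) (P w) p := by unfold orient; ring
    rw [this, hw2, neg_zero]
  obtain ⟨s, hs⟩ := exists_param hpw h1
  refine ⟨i, hiw, 1 - s, ?_, ?_⟩
  · intro h
    have hs1 : s = 1 := by linarith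
    rw [hs1] at hs
    apply hinj i w hiw
    simpa using hs
  · intro y
    rw [hs]
    simp only [orient, Prod.fst_add, Prod.snd_add, Prod.smul_fst, Prod.smul_snd, smul_eq_mul]
    ring

theorem cramer {p u t y : Pt} (hD : orient p u t ≠ 0) :
    y = p + (orient p y t / orient p u t) • (u - p) + (orient p u y / orient p u t) • (t - p) := by
  apply Prod.ext
  · simp only [Prod.fst_add, Prod.smul_fst, smul_eq_mul, Prod.fst_sub]
    field_simp
    unfold orient
    ring
  · simp only [Prod.snd_add, Prod.smul_snd, smul_eq_mul, Prod.snd_sub]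
    field_simp
    unfold orient
    ring

/-- A point of the closed cell is higher than `p`. -/
theorem lowest (hn : 3 ≤ n) {P : Fin n → Pt} (hP : Ccw P) {c : ℝ} {p : Pt}
    (hp : p ∈ verts P) {w t : Fin n} (hw : w ∈ U P c p) (ht : t ∈ U P c p) (hwt : w ≠ t)
    {x y : Pt} (hx : Good P p w t x)
    (hy : ∀ i j, 0 ≤ orient (P i) (P j) x * orient (P i) (P j) y) :
    hh c p ≤ hh c y ∧ (hh c p = hh c y → y = p) := by
  have hinj : ∀ i j, i ≠ j → P i ≠ P j := fun i j hij => ccw_ne hn hP hij
  have hD := noncol hn hP hp hw ht hwt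
  obtain ⟨i, hiw, s, hs, hsy⟩ := exists_factor hw hinj
  obtain ⟨j, hjt, s', hs', hsy'⟩ := exists_factor ht hinj
  have h1 : 0 ≤ orient p (P w) (P t) * orient p (P w) y := by
    have h2 := hx.s3 i w (by rw [hsy]; simp) (by rw [hsy]; simp)
      (by rw [hsy]; exact mul_ne_zero hs hD)
    have h3 := hy i w
    have h4 : orient (P i) (P w) x ≠ 0 := hx.off.2 i w hiw
    rw [hsy, hsy] at h2 h3
    rw [hsy] at h4
    have h5 := mul_nonneg h2.le h3
    have h6 : 0 < (s * orient p (P w) x) ^ 2 * s ^ 2 := by positivity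
    have h7 : 0 ≤ ((s * orient p (P w) x) ^ 2 * s ^ 2) *
        (orient p (P w) (P t) * orient p (P w) y) := by
      have : ((s * orient p (P w) x) ^ 2 * s ^ 2) *
        (orient p (P w) (P t) * orient p (P w) y) = s * orient p (P w) (P t) *
        (s * orient p (P w) x) * (s * orient p (P w) x * (s * orient p (P w) y)) := by ring
      rw [this]
      exact h5
    exact nonneg_of_mul_nonneg_right h7 h6
  have h1' : 0 ≤ orient p (P w) (P t) * orient p y (P t) := by
    have hD' : orient p (P t) (P w) ≠ 0 := by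
      rw [orient_swap']
      exact neg_ne_zero.mpr hD
    have h2 := hx.s2 j t (by rw [hsy']; simp) (by rw [hsy']; exact mul_ne_zero hs' hD')
    have h3 := hy j t
    have h4 : orient (P j) (P t) x ≠ 0 := hx.off.2 j t hjt
    rw [hsy', hsy'] at h2 h3
    rw [hsy'] at h4
    have h5 := mul_nonneg h2.le h3
    have h6 : 0 < (s' * orient p (P t) x) ^ 2 * s' ^ 2 := by positivity
    have h7 : 0 ≤ ((s' * orient p (P t) x) ^ 2 * s' ^ 2) *
        (orient p (P w) (P t) * orient p y (P t)) := by
      have : ((s' * orient p (P t) x) ^ 2 * s' ^ 2) *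
        (orient p (P w) (P t) * orient p y (P t)) = s' * orient p (P t) (P w) *
        (s' * orient p (P t) x) * (s' * orient p (P t) x * (s' * orient p (P t) y)) := by
        rw [orient_swap' p (P w) (P t), orient_swap' p y (P t)]
        ring
      rw [this]
      exact h5
    exact nonneg_of_mul_nonneg_right h7 h6
  have ha : 0 ≤ orient p y (P t) / orient p (P w) (P t) := by
    have : orient p y (P t) / orient p (P w) (P t) =
        (orient p (P w) (P t) * orient p y (P t)) / (orient p (P w) (P t)) ^ 2 := by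
      field_simp
    rw [this]
    positivity
  have hb : 0 ≤ orient p (P w) y / orient p (P w) (P t) := by
    have : orient p (P w) y / orient p (P w) (P t) =
        (orient p (P w) (P t) * orient p (P w) y) / (orient p (P w) (P t)) ^ 2 := by
      field_simp
    rw [this]
    positivity
  have hcr := cramer (y := y) hD
  have hw1 := (mem_U.mp hw).1
  have ht1 := (mem_U.mp ht).1
  set a := orient p y (P t) / orient p (P w) (P t) with hadef
  set b := orient p (P w) y / orient p (P w) (P t) with hbdef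
  have hhy : hh c y = hh c p + a * (hh c (P w) - hh c p) + b * (hh c (P t) - hh c p) := by
    conv_lhs => rw [hcr]
    exact hh_comb c p (P w) (P t) a b
  have hA : 0 ≤ a * (hh c (P w) - hh c p) := mul_nonneg ha (by linarith)
  have hB : 0 ≤ b * (hh c (P t) - hh c p) := mul_nonneg hb (by linarith)
  refine ⟨by linarith, fun heq => ?_⟩
  have hA0 : a * (hh c (P w) - hh c p) = 0 := by linarith
  have hB0 : b * (hh c (P t) - hh c p) = 0 := by linarith
  have ha0 : a = 0 := by
    rcases mul_eq_zero.mp hA0 with h | h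
    · exact h
    · linarith
  have hb0 : b = 0 := by
    rcases mul_eq_zero.mp hB0 with h | h
    · exact h
    · linarith
  rw [hcr, ha0, hb0]
  simp

theorem good_unique_point (hn : 3 ≤ n) {P : Fin n → Pt} (hP : Ccw P) {c : ℝ} {p p' : Pt}
    (hp : p ∈ verts P) (hp' : p' ∈ verts P) {w t w' t' : Fin n} (hw : w ∈ U P c p)
    (ht : t ∈ U P c p) (hwt : w ≠ t) (hw' : w' ∈ U P c p') (ht' : t' ∈ U P c p')
    (hwt' : w' ≠ t') {x : Pt} (hx : Good P p w t x) (hx' : Good P p' w' t' x) : p = p' := by
  have h1 : ∀ i j, 0 ≤ orient (P i) (P j) x * orient (P i) (P j) p' := by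
    intro i j
    by_cases h : orient (P i) (P j) p' = 0
    · rw [h, mul_zero]
    · rw [mul_comm]
      exact (hx'.s1 i j h).le
  have h2 : ∀ i j, 0 ≤ orient (P i) (P j) x * orient (P i) (P j) p := by
    intro i j
    by_cases h : orient (P i) (P j) p = 0
    · rw [h, mul_zero]
    · rw [mul_comm]
      exact (hx.s1 i j h).le
  obtain ⟨h3, h4⟩ := lowest hn hP hp hw ht hwt hx h1
  obtain ⟨h5, _⟩ := lowest hn hP hp' hw' ht' hwt' hx' h2
  exact (h4 (le_antisymm h3 h5)).symm

theorem good_unique (hn : 3 ≤ n) {P : Fin n → Pt} (hP : Ccw P) {c : ℝ} {p : Pt}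
    (hp : p ∈ verts P) {w t w' : Fin n} (hw : w ∈ U P c p)
    (ht : t ∈ U P c p) (hwt : w ≠ t) (hw' : w' ∈ U P c p)
    (hwt' : w' ≠ t) {x : Pt} (hx : Good P p w t x) (hx' : Good P p w' t x) : w = w' := by
  by_contra hne
  have hinj : ∀ i j, i ≠ j → P i ≠ P j := fun i j hij => ccw_ne hn hP hij
  have hD := noncol hn hP hp hw ht hwt
  have hD' := noncol hn hP hp hw' ht hwt'
  have hE := noncol hn hP hp hw hw' hne
  have hE' := noncol hn hP hp hw' hw (Ne.symm hne)
  have hF := noncol hn hP hp ht hw (Ne.symm hwt)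
  have hF' := noncol hn hP hp ht hw' (Ne.symm hwt')
  have key : ∀ a b x : ℝ, 0 < a * x → 0 < b * x → 0 < a * b := by
    intro a b x h1 h2
    have hx0 : x ≠ 0 := fun h => by rw [h, mul_zero] at h1; exact lt_irrefl _ h1
    have h3 := mul_pos h1 h2
    have h4 : 0 < x ^ 2 := by positivity
    have h5 : 0 < x ^ 2 * (a * b) := by linarith
    exact pos_of_mul_pos_right h5 h4.le
  have fac : ∀ s a b : ℝ, s ≠ 0 → 0 < (s * a) * (s * b) → 0 < a * b := by
    intro s a b hs h
    have h4 : 0 < s ^ 2 := by positivity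
    have h5 : 0 < s ^ 2 * (a * b) := by linarith
    exact pos_of_mul_pos_right h5 h4.le
  obtain ⟨i, hiw, s, hs, hsy⟩ := exists_factor hw hinj
  obtain ⟨i', hiw', s', hs', hsy'⟩ := exists_factor hw' hinj
  obtain ⟨j, hjt, r, hr, hry⟩ := exists_factor ht hinj
  -- line of w
  have a1 : 0 < orient p (P w) (P t) * orient p (P w) (P w') := by
    have h1 := hx.s3 i w (by rw [hsy]; simp) (by simp)
      (by rw [hsy]; exact mul_ne_zero hs hD)
    have h2 := hx'.s2 i w (by rw [hsy]; simp) (by rw [hsy]; exact mul_ne_zero hs hE)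
    have h3 := key _ _ _ h1 h2
    rw [hsy, hsy] at h3
    exact fac s _ _ hs h3
  have a2 : 0 < orient p (P w') (P t) * orient p (P w') (P w) := by
    have h1 := hx'.s3 i' w' (by rw [hsy']; simp) (by simp)
      (by rw [hsy']; exact mul_ne_zero hs' hD')
    have h2 := hx.s2 i' w' (by rw [hsy']; simp) (by rw [hsy']; exact mul_ne_zero hs' hE')
    have h3 := key _ _ _ h1 h2
    rw [hsy', hsy'] at h3
    exact fac s' _ _ hs' h3
  have a3 : 0 < orient p (P t) (P w) * orient p (P t) (P w') := by
    have h1 := hx.s2 j t (by rw [hry]; simp) (by rw [hry]; exact mul_ne_zero hr hF)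
    have h2 := hx'.s2 j t (by rw [hry]; simp) (by rw [hry]; exact mul_ne_zero hr hF')
    have h3 := key _ _ _ h1 h2
    rw [hry, hry] at h3
    exact fac r _ _ hr h3
  rw [orient_swap' p (P w) (P t), orient_swap' p (P w') (P t)] at a3
  rw [orient_swap' p (P w) (P w')] at a2
  set A := orient p (P w) (P t)
  set B := orient p (P w) (P w')
  set C := orient p (P w') (P t)
  -- A B > 0, - C B > 0, A C > 0
  have h1 : 0 < A * C := by linarith
  have h2 : 0 < (A * B) * (C * (-B)) := mul_pos a1 a2
  have h3 : (A * B) * (C * (-B)) = -((A * C) * B ^ 2) := by ring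
  have h4 : 0 ≤ (A * C) * B ^ 2 := by positivity
  linarith

/-- A representative of the sector `(w, t)` at `p`. -/
theorem exists_rep (hn : 3 ≤ n) {P : Fin n → Pt} (hP : Ccw P) {R : Finset Pt} (hR : IsReps P R)
    {c : ℝ} {p : Pt}
    (hp : p ∈ verts P) {w t : Fin n} (hw : w ∈ U P c p) (ht : t ∈ U P c p) (hwt : w ≠ t) :
    ∃ x ∈ R, Good P p w t x := by
  obtain ⟨x, hx⟩ := exists_good hn hP hp hw ht hwt
  obtain ⟨y, hyR, hy⟩ := hR.ex x hx.off
  have key : ∀ a b x : ℝ, 0 < a * x → 0 < x * b → 0 < a * b := by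
    intro a b x h1 h2
    have hx0 : x ≠ 0 := fun h => by rw [h, mul_zero] at h1; exact lt_irrefl _ h1
    have h3 := mul_pos h1 h2
    have h4 : 0 < x ^ 2 := by positivity
    have h5 : 0 < x ^ 2 * (a * b) := by linarith
    exact pos_of_mul_pos_right h5 h4.le
  have hne : ∀ i j (q : Pt), orient (P i) (P j) q ≠ 0 → i ≠ j := by
    intro i j q h hij
    apply h
    rw [hij]
    simp
  refine ⟨y, hyR, hR.off y hyR, ?_, ?_, ?_⟩
  · intro i j h1
    exact key _ _ _ (hx.s1 i j h1) (hy i j (hne i j _ h1))
  · intro i j h1 h2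
    exact key _ _ _ (hx.s2 i j h1 h2) (hy i j (hne i j _ h2))
  · intro i j h1 h2 h3
    exact key _ _ _ (hx.s3 i j h1 h2 h3) (hy i j (hne i j _ h3))

theorem card_lns_le (hn : 3 ≤ n) {P : Fin n → Pt} (hP : Ccw P) {c : ℝ}
    (hc : ∀ i j, i ≠ j → hh c (P i) ≠ hh c (P j)) {p : Pt} (hp : p ∈ inside P) :
    (lns P p).card ≤ (U P c p).card := by
  classical
  have hup : ∀ e ∈ lns P p, (hh c p < hh c (P e.1) ∨ hh c p < hh c (P e.2)) := by
    intro e he
    simp only [lns, Finset.mem_filter, Finset.mem_univ, true_and] at he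
    obtain ⟨s, hs0, hs1, hs⟩ := mem_openSegment_of_inside hn hP he.1.ne hp he.2
    by_contra hneg
    push Not at hneg
    have h3 : hh c p = (1 - s) * hh c (P e.1) + s * hh c (P e.2) := by
      conv_lhs => rw [hs]
      unfold hh
      simp only [Prod.fst_add, Prod.snd_add, Prod.smul_fst, Prod.smul_snd, smul_eq_mul]
      ring
    have h4 : 0 ≤ (1 - s) * (hh c p - hh c (P e.1)) :=
      mul_nonneg (by linarith) (by linarith [hneg.1])
    have h5 : 0 ≤ s * (hh c p - hh c (P e.2)) := mul_nonneg hs0.le (by linarith [hneg.2])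
    have h6 : (1 - s) * (hh c p - hh c (P e.1)) = 0 := by linarith
    have h7 : s * (hh c p - hh c (P e.2)) = 0 := by linarith
    have h8 : hh c p = hh c (P e.1) := by
      rcases mul_eq_zero.mp h6 with h | h <;> linarith
    have h9 : hh c p = hh c (P e.2) := by
      rcases mul_eq_zero.mp h7 with h | h <;> linarith
    exact hc _ _ he.1.ne (h8.symm.trans h9)
  let f : Fin n × Fin n → Fin n := fun e => if hh c p < hh c (P e.1) then e.1 else e.2
  refine Finset.card_le_card_of_injOn f ?_ ?_
  · intro e he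
    have h1 := hup e he
    simp only [lns, Finset.coe_filter, Finset.mem_univ, true_and, Set.mem_ofPred_eq] at he
    by_cases h : hh c p < hh c (P e.1)
    · simp only [f, if_pos h]
      apply mem_U.mpr
      refine ⟨h, e.2, he.1.ne', ?_⟩
      rw [orient_swap, he.2, neg_zero]
    · simp only [f, if_neg h]
      apply mem_U.mpr
      exact ⟨h1.resolve_left h, e.1, he.1.ne, he.2⟩
  · -- two lines with the same upper end
    have key : ∀ e ∈ lns P p, ∃ i, i ≠ f e ∧ orient (P i) (P (f e)) p = 0 ∧
        hh c p < hh c (P (f e)) ∧ (e = (i, f e) ∨ e = (f e, i)) := by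
      intro e he
      have h1 := hup e he
      simp only [lns, Finset.mem_filter, Finset.mem_univ, true_and] at he
      by_cases h : hh c p < hh c (P e.1)
      · refine ⟨e.2, ?_⟩
        simp only [f, if_pos h]
        refine ⟨he.1.ne', ?_, h, Or.inr trivial⟩
        rw [orient_swap, he.2, neg_zero]
      · refine ⟨e.1, ?_⟩
        simp only [f, if_neg h]
        exact ⟨he.1.ne, he.2, h1.resolve_left h, Or.inl trivial⟩
    intro e he e' he' hee
    obtain ⟨i, hi1, hi2, hi3, hi4⟩ := key e he
    obtain ⟨i', hi1', hi2', hi3', hi4'⟩ := key e' he'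
    rw [← hee] at hi1' hi2' hi4'
    have hii : i = i' := by
      by_contra hne
      have hpw : p ≠ P (f e) := fun h => by rw [← h] at hi3; exact lt_irrefl _ hi3
      have g1 : orient p (P (f e)) (P i) = 0 := by
        have : orient p (P (f e)) (P i) = - orient (P i) (P (f e)) p := by unfold orient; ring
        rw [this, hi2, neg_zero]
      have g2 : orient p (P (f e)) (P i') = 0 := by
        have : orient p (P (f e)) (P i') = - orient (P i') (P (f e)) p := by unfold orient; ring
        rw [this, hi2', neg_zero]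
      have g3 : orient p (P (f e)) (P (f e)) = 0 := by simp
      exact orient_ne hP hi1 hne hi1'.symm (three_on_line hpw g1 g3 g2)
    subst hii
    simp only [lns, Finset.coe_filter, Finset.mem_univ, true_and, Set.mem_ofPred_eq] at he he'
    rcases hi4 with h | h <;> rcases hi4' with h' | h'
    · rw [h, h']
    · exfalso
      have h1 := he.1
      have h2 := he'.1
      rw [h] at h1
      rw [h'] at h2
      exact lt_asymm h1 h2
    · exfalso
      have h1 := he.1
      have h2 := he'.1
      rw [h] at h1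
      rw [h'] at h2
      exact lt_asymm h1 h2
    · rw [h, h']

theorem sum_vertices (hn : 3 ≤ n) {P : Fin n → Pt} {c : ℝ}
    (hc : ∀ i j, i ≠ j → hh c (P i) ≠ hh c (P j)) :
    (n - 1).choose 2 ≤ ∑ v : Fin n, ((U P c (P v)).card - 1) := by
  classical
  have : Nonempty (Fin n) := ⟨⟨0, by omega⟩⟩
  let g : Fin n → ℝ := fun v => hh c (P v)
  have hg : Function.Injective g := by
    intro i j hij
    by_contra hne
    exact hc i j hne hij
  have hU : ∀ v, U P c (P v) = Finset.univ.filter (fun w => g v < g w) := by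
    intro v
    ext w
    rw [mem_U]
    simp only [Finset.mem_filter, Finset.mem_univ, true_and]
    constructor
    · exact fun h => h.1
    · intro h
      refine ⟨h, v, ?_, by simp⟩
      rintro rfl
      exact lt_irrefl _ h
  obtain ⟨T, hT⟩ := Finite.exists_max g
  -- the sum of all the cardinals
  have hsum : 2 * ∑ v : Fin n, (U P c (P v)).card = n * (n - 1) := by
    have h1 : ∀ v, (U P c (P v)).card = ∑ w, if g v < g w then 1 else 0 := by
      intro v
      rw [hU, Finset.card_filter]
    have h2 : ∑ v : Fin n, (U P c (P v)).card = ∑ v, ∑ w, if g v < g w then 1 else 0 :=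
      Finset.sum_congr rfl fun v _ => h1 v
    have h3 : ∑ v : Fin n, (U P c (P v)).card = ∑ v, ∑ w, if g w < g v then 1 else 0 := by
      rw [h2, Finset.sum_comm]
    have h4 : ∀ v w : Fin n, ((if g v < g w then 1 else 0) + (if g w < g v then 1 else 0) : ℕ)
        = if v = w then 0 else 1 := by
      intro v w
      by_cases hvw : v = w
      · subst hvw; simp
      · rw [if_neg hvw]
        rcases lt_trichotomy (g v) (g w) with h | h | h
        · rw [if_pos h, if_neg (lt_asymm h)]
        · exact absurd (hg h) hvw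
        · rw [if_neg (lt_asymm h), if_pos h]
    calc 2 * ∑ v : Fin n, (U P c (P v)).card
        = ∑ v : Fin n, (U P c (P v)).card + ∑ v : Fin n, (U P c (P v)).card := two_mul _
      _ = (∑ v, ∑ w, if g v < g w then 1 else 0) + ∑ v, ∑ w, if g w < g v then 1 else 0 := by
          rw [← h2, ← h3]
      _ = ∑ v : Fin n, ∑ w : Fin n, if v = w then 0 else 1 := by
          rw [← Finset.sum_add_distrib]
          refine Finset.sum_congr rfl fun v _ => ?_
          rw [← Finset.sum_add_distrib]
          exact Finset.sum_congr rfl fun w _ => h4 v w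
      _ = n * (n - 1) := by
          have h5 : ∀ v : Fin n, (∑ w : Fin n, if v = w then 0 else 1) = n - 1 := by
            intro v
            have h6 : (∑ w : Fin n, if v = w then 0 else 1) =
                (Finset.univ.filter (fun w : Fin n => ¬ v = w)).card := by
              rw [Finset.card_filter]
              refine Finset.sum_congr rfl fun w _ => ?_
              by_cases h : v = w <;> simp [h]
            rw [h6, Finset.filter_ne, Finset.card_erase_of_mem (Finset.mem_univ v)]
            simp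
          rw [Finset.sum_congr rfl fun v _ => h5 v]
          simp
  have hpos : ∀ v, v ≠ T → 1 ≤ (U P c (P v)).card := by
    intro v hv
    rw [Finset.one_le_card]
    refine ⟨T, ?_⟩
    rw [hU]
    simp only [Finset.mem_filter, Finset.mem_univ, true_and]
    exact lt_of_le_of_ne (hT v) (fun h => hv (hg h))
  have h7 : ∑ v : Fin n, (U P c (P v)).card ≤ ∑ v : Fin n, ((U P c (P v)).card - 1) + (n - 1) := by
    rw [← Finset.add_sum_erase _ _ (Finset.mem_univ T), ← Finset.add_sum_erase _ _
      (Finset.mem_univ T)]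
    have hT0 : (U P c (P T)).card = 0 := by
      rw [Finset.card_eq_zero, hU]
      ext w
      simp only [Finset.mem_filter, Finset.mem_univ, true_and, Finset.notMem_empty, iff_false,
        not_lt]
      exact hT w
    have h8 : ∑ v ∈ Finset.univ.erase T, (U P c (P v)).card ≤
        ∑ v ∈ Finset.univ.erase T, (((U P c (P v)).card - 1) + 1) := by
      refine Finset.sum_le_sum fun v hv => ?_
      omega
    rw [Finset.sum_add_distrib, Finset.sum_const, Finset.card_erase_of_mem (Finset.mem_univ T)]
      at h8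
    simp only [Finset.card_univ, Fintype.card_fin, smul_eq_mul, mul_one] at h8
    rw [hT0]
    omega
  have h9 : (n - 1).choose 2 + (n - 1) = n.choose 2 := by
    obtain ⟨m, rfl⟩ : ∃ m, n = m + 1 := ⟨n - 1, by omega⟩
    rw [Nat.choose_succ_succ' m 1]
    simp
    ring
  have h10 : n.choose 2 * 2 = n * (n - 1) := by
    rw [Nat.choose_two_right]
    exact Nat.div_mul_cancel (Nat.even_mul_pred_self n).two_dvd
  omega

open Classical in
theorem cells_ge (hn : 3 ≤ n) {P : Fin n → Pt} (hP : Ccw P) {R Vc : Finset Pt} (hR : IsReps P R)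
    (hV : IsCross P Vc) :
    (n - 1).choose 2 + ∑ p ∈ Vc, ((lns P p).card - 1) ≤ R.card := by
  have hinj : ∀ i j, i ≠ j → P i ≠ P j := fun i j hij => ccw_ne hn hP hij
  have hne : Nonempty (Fin n) := ⟨⟨0, by omega⟩⟩
  obtain ⟨c, hc⟩ := exists_height hinj
  -- choice of a base direction at every point
  let T : Pt → Fin n := fun p => if h : (U P c p).Nonempty then h.choose else Classical.choice hne
  have hT : ∀ p w, w ∈ U P c p → T p ∈ U P c p := by
    intro p w hw
    have h : (U P c p).Nonempty := ⟨w, hw⟩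
    simp only [T, dif_pos h]
    exact h.choose_spec
  let V : Finset Pt := Vc ∪ Finset.univ.image P
  have hVv : ∀ p ∈ V, p ∈ verts P := by
    intro p hp
    rcases Finset.mem_union.mp hp with h | h
    · exact Or.inr ((hV p).mp h)
    · obtain ⟨v, _, rfl⟩ := Finset.mem_image.mp h
      exact Or.inl ⟨v, rfl⟩
  have hdisj : Disjoint Vc (Finset.univ.image P) := by
    rw [Finset.disjoint_left]
    intro p h1 h2
    obtain ⟨v, _, rfl⟩ := Finset.mem_image.mp h2
    exact vertex_notMem_inside hn hP v ((hV _).mp h1).1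
  let D : Finset (Σ _ : Pt, Fin n) := V.sigma (fun p => (U P c p).erase (T p))
  have hDcard : D.card = ∑ p ∈ V, ((U P c p).erase (T p)).card := Finset.card_sigma _ _
  have herase : ∀ p, ((U P c p).erase (T p)).card = (U P c p).card - 1 := by
    intro p
    rcases (U P c p).eq_empty_or_nonempty with h | ⟨w, hw⟩
    · rw [h]; simp
    · exact Finset.card_erase_of_mem (hT p w hw)
  have hDge : (n - 1).choose 2 + ∑ p ∈ Vc, ((lns P p).card - 1) ≤ D.card := by
    rw [hDcard, Finset.sum_union hdisj, Finset.sum_image (fun i _ j _ h => by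
      by_contra hij
      exact hinj i j hij h)]
    have h1 := sum_vertices hn hc
    have h2 : ∑ p ∈ Vc, ((lns P p).card - 1) ≤ ∑ p ∈ Vc, ((U P c p).erase (T p)).card := by
      refine Finset.sum_le_sum fun p hp => ?_
      rw [herase]
      have := card_lns_le hn hP hc ((hV p).mp hp).1
      omega
    have h3 : ∑ v : Fin n, ((U P c (P v)).erase (T (P v))).card =
        ∑ v : Fin n, ((U P c (P v)).card - 1) := Finset.sum_congr rfl fun v _ => herase _
    omega
  refine hDge.trans ?_
  have hex : ∀ d : (Σ _ : Pt, Fin n), d ∈ D → ∃ x, x ∈ R ∧ Good P d.1 d.2 (T d.1) x := by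
    rintro ⟨p, w⟩ hd
    rw [Finset.mem_sigma] at hd
    obtain ⟨hp, hw⟩ := hd
    rw [Finset.mem_erase] at hw
    obtain ⟨x, hxR, hx⟩ := exists_rep hn hP hR (hVv p hp) hw.2 (hT p w hw.2) hw.1
    exact ⟨x, hxR, hx⟩
  choose! f hf using hex
  refine Finset.card_le_card_of_injOn f (fun d hd => (hf d hd).1) ?_
  rintro ⟨p, w⟩ hd ⟨p', w'⟩ hd' hff
  have h1 := (hf _ hd).2
  have h2 := (hf _ hd').2
  rw [← hff] at h2
  rw [Finset.mem_coe, Finset.mem_sigma] at hd hd'
  obtain ⟨hp, hw⟩ := hd
  obtain ⟨hp', hw'⟩ := hd'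
  rw [Finset.mem_erase] at hw hw'
  simp only at h1 h2 hp hp' hw hw'
  have hpp : p = p' := good_unique_point hn hP (hVv p hp) (hVv p' hp') hw.2 (hT p w hw.2) hw.1
    hw'.2 (hT p' w' hw'.2) hw'.1 h1 h2
  subst hpp
  have hww : w = w' := good_unique hn hP (hVv p hp) hw.2 (hT p w hw.2) hw.1 hw'.2 hw'.1 h1 h2
  subst hww
  rfl

end Pool.H47.Tri.B1
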