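import Mathlib
import Pool.Agent.H47.Tri.Basic

/-! # MP_c17047_co, module B2: an upper bound for the number of corners -/

set_option autoImplicit false

namespace Pool.H47.Tri.B2

open Pool.H47.Tri Set Filter Topology

variable {n : ℕ}

theorem ccell_pos {P : Fin n → Pt} {x p : Pt} (hx : x ∈ offLines P) (hp : p ∈ ccell P x)
    {i j : Fin n} (h : orient (P i) (P j) p ≠ 0) :
    0 < orient (P i) (P j) x * orient (P i) (P j) p := by
  have hij : i ≠ j := by
    rintro rfl
    exact h (by simp)
  exact lt_of_le_of_ne (hp i j) (mul_ne_zero (hx.2 i j hij) h).symm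

theorem mul_pos_trans {a b c : ℝ} (h1 : 0 < a * c) (h2 : 0 < b * c) : 0 < a * b := by
  have hc : c ≠ 0 := fun h => by rw [h, mul_zero] at h1; exact lt_irrefl _ h1
  have h3 := mul_pos h1 h2
  have h4 : 0 < c ^ 2 := by positivity
  have h5 : 0 < c ^ 2 * (a * b) := by linarith
  exact pos_of_mul_pos_right h5 h4.le

/-- Direction of a line. -/
def dv (P : Fin n → Pt) (e : Fin n × Fin n) : Pt := P e.2 - P e.1

theorem orient_dv {P : Fin n → Pt} {e : Fin n × Fin n} {p : Pt}
    (hp : orient (P e.1) (P e.2) p = 0) (x : Pt) :
    orient (P e.1) (P e.2) x = cross (dv P e) (x - p) := by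
  unfold orient at hp
  unfold orient cross dv
  simp only [Prod.fst_sub, Prod.snd_sub]
  linarith

/-- Different lines through a common point are not parallel. -/
theorem dv_cross_ne (hn : 3 ≤ n) {P : Fin n → Pt} (hP : Ccw P) {e f : Fin n × Fin n} {p : Pt}
    (he : e.1 < e.2) (hf : f.1 < f.2) (hef : e ≠ f) (hep : orient (P e.1) (P e.2) p = 0)
    (hfp : orient (P f.1) (P f.2) p = 0) : cross (dv P e) (dv P f) ≠ 0 := by
  intro h0
  have h1 : orient (P e.1) (P e.2) (P f.1) = 0 := by
    rw [orient_dv hep]
    -- `P f.1 - p` is parallel to `dv P f`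
    obtain ⟨t, ht⟩ := exists_param (ccw_ne hn hP hf.ne) hfp
    have h2 : P f.1 - p = (-t) • dv P f := by
      rw [ht]
      unfold dv
      module
    rw [h2]
    unfold cross at h0 ⊢
    simp only [Prod.smul_fst, Prod.smul_snd, smul_eq_mul]
    linear_combination (-t) * h0
  have h2 : orient (P e.1) (P e.2) (P f.2) = 0 := by
    rw [orient_dv hep]
    obtain ⟨t, ht⟩ := exists_param (ccw_ne hn hP hf.ne) hfp
    have h2 : P f.2 - p = (1 - t) • dv P f := by
      rw [ht]
      unfold dv
      module
    rw [h2]
    unfold cross at h0 ⊢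
    simp only [Prod.smul_fst, Prod.smul_snd, smul_eq_mul]
    linear_combination (1 - t) * h0
  have h3 : f.1 = e.1 ∨ f.1 = e.2 := by
    by_contra h
    push Not at h
    exact orient_ne hP he.ne h.1.symm h.2.symm h1
  have h4 : f.2 = e.1 ∨ f.2 = e.2 := by
    by_contra h
    push Not at h
    exact orient_ne hP he.ne h.1.symm h.2.symm h2
  rcases h3 with h3 | h3 <;> rcases h4 with h4 | h4
  · rw [h3, h4] at hf
    exact lt_irrefl _ hf
  · exact hef (Prod.ext h3.symm h4.symm)
  · rw [h3, h4] at hf
    exact lt_asymm he hf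
  · rw [h3, h4] at hf
    exact lt_irrefl _ hf

theorem key_identity (u d0 d : Pt) :
    (u.1 * d0.1 + u.2 * d0.2) * cross d u - (u.1 * d.1 + u.2 * d.2) * cross d0 u =
      (u.1 ^ 2 + u.2 ^ 2) * cross d d0 := by
  unfold cross
  ring

theorem norm_pos {u d : Pt} (h : cross d u ≠ 0) : 0 < u.1 ^ 2 + u.2 ^ 2 := by
  rcases eq_or_ne u.1 0 with h1 | h1
  · rcases eq_or_ne u.2 0 with h2 | h2
    · exfalso
      apply h
      unfold cross
      rw [h1, h2]
      ring
    · positivity
  · positivity

/-- At a crossing point, the sign pattern of the lines through it has at most `2 k` values. -/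
theorem crossing_le (hn : 3 ≤ n) {P : Fin n → Pt} (hP : Ccw P) {R : Finset Pt} (hR : IsReps P R)
    {p : Pt} (hp : (lns P p).Nonempty) {S : Finset Pt} (hS : ∀ x ∈ S, x ∈ R ∧ p ∈ ccell P x) :
    S.card ≤ 2 * (lns P p).card := by
  classical
  have hlns : ∀ e ∈ lns P p, e.1 < e.2 ∧ orient (P e.1) (P e.2) p = 0 := by
    intro e he
    simpa [lns] using he
  have : Nonempty (Fin n × Fin n) := ⟨hp.choose⟩
  -- choice of the first line
  have hex : ∀ x ∈ S, ∃ e ∈ lns P p, ∀ f ∈ lns P p, f ≠ e →
      0 < orient (P e.1) (P e.2) x * orient (P f.1) (P f.2) x * cross (dv P e) (dv P f) := by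
    intro x hx
    have hxo := hR.off x (hS x hx).1
    obtain ⟨e, he, hmin⟩ := (lns P p).exists_min_image
      (fun e => ((x - p).1 * (dv P e).1 + (x - p).2 * (dv P e).2) / orient (P e.1) (P e.2) x) hp
    refine ⟨e, he, fun f hf hfe => ?_⟩
    obtain ⟨he1, he2⟩ := hlns e he
    obtain ⟨hf1, hf2⟩ := hlns f hf
    have h1 := hmin f hf
    have hle : orient (P e.1) (P e.2) x ≠ 0 := hxo.2 _ _ he1.ne
    have hlf : orient (P f.1) (P f.2) x ≠ 0 := hxo.2 _ _ hf1.ne
    have hcr := dv_cross_ne hn hP he1 hf1 hfe.symm he2 hf2
    have hle' := orient_dv he2 x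
    have hlf' := orient_dv hf2 x
    rw [hle', hlf'] at h1 ⊢
    rw [hle'] at hle
    rw [hlf'] at hlf
    have hnp := norm_pos hle
    set u := x - p with hu
    set a := cross (dv P e) u with ha
    set b := cross (dv P f) u with hb
    have hid := key_identity u (dv P e) (dv P f)
    rw [← ha, ← hb] at hid
    -- multiply out
    have h2 : (u.1 * (dv P e).1 + u.2 * (dv P e).2) * (a * b ^ 2) ≤
        (u.1 * (dv P f).1 + u.2 * (dv P f).2) * (b * a ^ 2) := by
      have h3 : 0 < a ^ 2 * b ^ 2 := by positivity
      have h4 := mul_le_mul_of_nonneg_right h1 h3.le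
      have h5 : (u.1 * (dv P e).1 + u.2 * (dv P e).2) / a * (a ^ 2 * b ^ 2) =
          (u.1 * (dv P e).1 + u.2 * (dv P e).2) * (a * b ^ 2) := by
        field_simp
      have h6 : (u.1 * (dv P f).1 + u.2 * (dv P f).2) / b * (a ^ 2 * b ^ 2) =
          (u.1 * (dv P f).1 + u.2 * (dv P f).2) * (b * a ^ 2) := by
        field_simp
      rw [h5, h6] at h4
      exact h4
    have hcc : cross (dv P f) (dv P e) = - cross (dv P e) (dv P f) := by
      unfold cross; ring
    rw [hcc] at hid
    have h7 : 0 ≤ (u.1 ^ 2 + u.2 ^ 2) * (a * b * cross (dv P e) (dv P f)) := by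
      have h8 : (u.1 ^ 2 + u.2 ^ 2) * (a * b * cross (dv P e) (dv P f)) =
          -(a * b) * ((u.1 ^ 2 + u.2 ^ 2) * (- cross (dv P e) (dv P f))) := by ring
      rw [h8, ← hid]
      nlinarith
    have h8 : 0 ≤ a * b * cross (dv P e) (dv P f) := nonneg_of_mul_nonneg_right h7 hnp
    exact lt_of_le_of_ne h8 (mul_ne_zero (mul_ne_zero hle hlf) hcr).symm
  choose! g hg1 hg2 using hex
  have hcard : S.card ≤ (lns P p ×ˢ (Finset.univ : Finset Bool)).card := by
    refine Finset.card_le_card_of_injOn
      (fun x => (g x, decide (0 < orient (P (g x).1) (P (g x).2) x))) ?_ ?_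
    · intro x hx
      simp only [Finset.coe_product, Finset.coe_univ, Set.mem_prod, Finset.mem_coe, Set.mem_univ,
        and_true]
      exact hg1 x hx
    · intro x hx y hy hxy
      simp only [Prod.mk.injEq, decide_eq_decide] at hxy
      obtain ⟨h1, h2⟩ := hxy
      have hxS := hS x hx
      have hyS := hS y hy
      have hxo := hR.off x hxS.1
      have hyo := hR.off y hyS.1
      refine hR.uniq x hxS.1 y hyS.1 ?_
      -- the sign of the first line
      have hg0 : 0 < orient (P (g x).1) (P (g x).2) x * orient (P (g x).1) (P (g x).2) y := by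
        rw [← h1] at h2
        have hx0 : orient (P (g x).1) (P (g x).2) x ≠ 0 := hxo.2 _ _ (hlns _ (hg1 x hx)).1.ne
        have hy0 : orient (P (g x).1) (P (g x).2) y ≠ 0 := hyo.2 _ _ (hlns _ (hg1 x hx)).1.ne
        by_cases h : 0 < orient (P (g x).1) (P (g x).2) x
        · exact mul_pos h (h2.mp h)
        · have h' : ¬ 0 < orient (P (g x).1) (P (g x).2) y := fun h'' => h (h2.mpr h'')
          exact mul_pos_of_neg_of_neg (lt_of_le_of_ne (not_lt.mp h) hx0)
            (lt_of_le_of_ne (not_lt.mp h') hy0)
      -- ordered pairs first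
      have hord : ∀ i j : Fin n, i < j →
          0 < orient (P i) (P j) x * orient (P i) (P j) y := by
        intro i j hij
        by_cases h0 : orient (P i) (P j) p = 0
        · have he : (i, j) ∈ lns P p := by simp [lns, hij, h0]
          by_cases hge : (i, j) = g x
          · rw [← hge] at hg0
            exact hg0
          · have h3 := hg2 x hx (i, j) he hge
            have h4 := hg2 y hy (i, j) he (by rw [← h1]; exact hge)
            rw [← h1] at h4
            simp only at h3 h4
            set A := orient (P (g x).1) (P (g x).2) x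
            set A' := orient (P (g x).1) (P (g x).2) y
            set B := orient (P i) (P j) x
            set B' := orient (P i) (P j) y
            set C := cross (dv P (g x)) (dv P (i, j))
            have h5 : 0 < (A * B) * (A' * B') := mul_pos_trans h3 h4
            have h6 : 0 < (B * B') * (A * A') := by
              have : (B * B') * (A * A') = (A * B) * (A' * B') := by ring
              rw [this]; exact h5
            exact pos_of_mul_pos_left h6 hg0.le
        · have h3 := ccell_pos hxo hxS.2 h0
          have h4 := ccell_pos hyo hyS.2 h0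
          exact mul_pos_trans h3 h4
      intro i j hij
      rcases lt_or_gt_of_ne hij with h | h
      · exact hord i j h
      · have := hord j i h
        rw [orient_swap (P j) (P i) x, orient_swap (P j) (P i) y]
        linarith
  rw [Finset.card_product] at hcard
  simp only [Finset.card_univ, Fintype.card_bool] at hcard
  omega

/-- At most `n - 2` cells at a vertex of the polygon. -/
theorem vertex_le (hn : 3 ≤ n) {P : Fin n → Pt} (hP : Ccw P) {R : Finset Pt} (hR : IsReps P R)
    (v : Fin n) {S : Finset Pt} (hS : ∀ x ∈ S, x ∈ R ∧ P v ∈ ccell P x) :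
    S.card ≤ n - 2 := by
  classical
  have : Nonempty (Fin n) := ⟨v⟩
  obtain ⟨s, hs⟩ := exists_succ hn hP v
  obtain ⟨h, hh⟩ := exists_pred hn hP v
  have hcr : ∀ i x, orient (P v) (P i) x = cross (P i - P v) (x - P v) := by
    intro i x
    unfold orient cross
    simp
  -- first vertex counterclockwise from `x`
  have hex : ∀ x ∈ S, ∃ w, w ≠ v ∧ orient (P v) (P w) x < 0 ∧
      ∀ i, i ≠ v → i ≠ w → orient (P v) (P i) x < 0 → 0 < orient (P v) (P w) (P i) := by
    intro x hx
    have hxo := hR.off x (hS x hx).1
    let W : Finset (Fin n) := Finset.univ.filter (fun w => w ≠ v ∧ orient (P v) (P w) x < 0)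
    have hW : ∀ w, w ∈ W ↔ w ≠ v ∧ orient (P v) (P w) x < 0 := fun w => by simp [W]
    have hWne : W.Nonempty := by
      refine ⟨h, (hW h).mpr ⟨hh.1, ?_⟩⟩
      rw [orient_swap]
      have := mem_inside.mp hxo.1 h v hh
      linarith
    obtain ⟨w, hw, hmin⟩ := W.exists_max_image
      (fun w => ((x - P v).1 * (P w - P v).1 + (x - P v).2 * (P w - P v).2) /
        (- orient (P v) (P w) x)) hWne
    obtain ⟨hw1, hw2⟩ := (hW w).mp hw
    refine ⟨w, hw1, hw2, fun i hi1 hi2 hi3 => ?_⟩
    have h1 := hmin i ((hW i).mpr ⟨hi1, hi3⟩)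
    have hne := orient_ne hP hw1.symm hi1.symm hi2.symm
    rw [hcr i x] at h1 hi3
    rw [hcr w x] at h1 hw2
    rw [hcr w (P i)] at hne ⊢
    have hnp := norm_pos hw2.ne
    have hid := key_identity (x - P v) (P w - P v) (P i - P v)
    set u := x - P v with hu
    set d0 := P w - P v with hd0
    set d := P i - P v with hd
    rw [div_le_div_iff₀ (by linarith) (by linarith)] at h1
    have hcc : cross d d0 = - cross d0 d := by unfold cross; ring
    rw [hcc] at hid
    have h3 : 0 ≤ (u.1 ^ 2 + u.2 ^ 2) * cross d0 d := by nlinarith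
    exact lt_of_le_of_ne (nonneg_of_mul_nonneg_right h3 hnp) hne.symm
  choose! g hg1 hg2 hg3 using hex
  have hcard : S.card ≤ ((Finset.univ.erase v).erase s).card := by
    refine Finset.card_le_card_of_injOn g ?_ ?_
    · intro x hx
      have hxo := hR.off x (hS x hx).1
      simp only [Finset.coe_erase, Finset.coe_univ, Set.mem_sdiff, Set.mem_univ,
        Set.mem_singleton_iff, true_and]
      refine ⟨hg1 x hx, ?_⟩
      intro h0
      have h1 := hg2 x hx
      rw [h0] at h1
      have h2 := mem_inside.mp hxo.1 v s hs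
      linarith
    · intro x hx y hy hxy
      have hxS := hS x hx
      have hyS := hS y hy
      have hxo := hR.off x hxS.1
      have hyo := hR.off y hyS.1
      refine hR.uniq x hxS.1 y hyS.1 ?_
      -- characterisation of the sign
      have hchar : ∀ z ∈ S, ∀ i, i ≠ v → i ≠ g z → 0 < orient (P v) (P i) z →
          orient (P v) (P (g z)) (P i) < 0 := by
        intro z hz i hi1 hi2 hi3
        have hzo := hR.off z (hS z hz).1
        have h1 := hg2 z hz
        have h2 := mem_inside.mp hzo.1 v s hs
        have hgs : g z ≠ s := by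
          intro h0
          rw [h0] at h1
          linarith
        have h4 : 0 < orient (P v) (P s) (P (g z)) := hs.2 _ (hg1 z hz) hgs
        have h5 : 0 ≤ orient (P v) (P s) (P i) := by
          by_cases h0 : i = s
          · subst h0; simp
          · exact (hs.2 i hi1 h0).le
        rw [hcr] at h1 h2 h4 h5 hi3 ⊢
        set u := z - P v
        set d0 := P (g z) - P v
        set d := P i - P v
        set f := P s - P v
        -- f(u) cross d d0 = f(d) cross u d0 + f(d0) cross d u
        have hid : cross f u * cross d0 d = - (cross f d * (- cross d0 u)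
            + cross f d0 * cross d u) := by
          unfold cross
          ring
        have h6 : 0 ≤ cross f d * (- cross d0 u) := mul_nonneg h5 (by linarith)
        have h7 : 0 < cross f d0 * cross d u := mul_pos h4 hi3
        by_contra hneg
        have h8 : 0 ≤ cross f u * cross d0 d := mul_nonneg h2.le (not_lt.mp hneg)
        linarith
      have hv : ∀ i, i ≠ v → 0 < orient (P v) (P i) x * orient (P v) (P i) y := by
        intro i hi
        have hx0 : orient (P v) (P i) x ≠ 0 := hxo.2 _ _ hi.symm
        have hy0 : orient (P v) (P i) y ≠ 0 := hyo.2 _ _ hi.symm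
        by_cases hig : i = g x
        · have h1 := hg2 x hx
          have h2 := hg2 y hy
          rw [← hxy] at h2
          rw [hig]
          exact mul_pos_of_neg_of_neg h1 h2
        · have hig' : i ≠ g y := by rw [← hxy]; exact hig
          rcases lt_or_gt_of_ne hx0 with h1 | h1
          · rcases lt_or_gt_of_ne hy0 with h2 | h2
            · exact mul_pos_of_neg_of_neg h1 h2
            · have h3 := hg3 x hx i hi hig h1
              have h4 := hchar y hy i hi hig' h2
              rw [← hxy] at h4
              linarith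
          · rcases lt_or_gt_of_ne hy0 with h2 | h2
            · have h3 := hg3 y hy i hi hig' h2
              have h4 := hchar x hx i hi hig h1
              rw [← hxy] at h3
              linarith
            · exact mul_pos h1 h2
      intro i j hij
      by_cases hiv : i = v
      · subst hiv
        exact hv j hij.symm
      · by_cases hjv : j = v
        · subst hjv
          have := hv i hij
          rw [orient_swap (P j) (P i) x, orient_swap (P j) (P i) y]
          linarith
        · have h0 : orient (P i) (P j) (P v) ≠ 0 := orient_ne hP hij hiv hjv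
          exact mul_pos_trans (ccell_pos hxo hxS.2 h0) (ccell_pos hyo hyS.2 h0)
  rw [Finset.card_erase_of_mem, Finset.card_erase_of_mem (Finset.mem_univ v)] at hcard
  · simp only [Finset.card_univ, Fintype.card_fin] at hcard
    omega
  · rw [Finset.mem_erase]
    exact ⟨hs.1.symm, Finset.mem_univ s⟩

theorem lns_nonempty {P : Fin n → Pt} {p : Pt} (hp : p ∈ crossings P) : (lns P p).Nonempty := by
  obtain ⟨_, i, j, k, l, hij, _, _, h0, _⟩ := hp
  exact ⟨(i, j), by simp [lns, hij, h0]⟩

open Classical in
theorem corners_eq {P : Fin n → Pt} {Vc : Finset Pt} (hV : IsCross P Vc) (x : Pt) :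
    (corners P x).ncard = ((Vc ∪ Finset.univ.image P).filter (fun p => p ∈ ccell P x)).card := by
  rw [← Set.ncard_coe_finset]
  congr 1
  ext p
  simp only [corners, verts, Finset.coe_filter, Finset.mem_union, Finset.mem_image,
    Finset.mem_univ, true_and, Set.mem_ofPred_eq, Set.mem_union, Set.mem_range, hV p]
  tauto

open Classical in
theorem corners_le (hn : 3 ≤ n) {P : Fin n → Pt} (hP : Ccw P) {R Vc : Finset Pt} (hR : IsReps P R)
    (hV : IsCross P Vc) :
    ∑ x ∈ R, (corners P x).ncard ≤ n * (n - 2) + ∑ p ∈ Vc, 2 * (lns P p).card := by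
  have hinj : ∀ i j, i ≠ j → P i ≠ P j := fun i j hij => ccw_ne hn hP hij
  have hdisj : Disjoint Vc (Finset.univ.image P) := by
    rw [Finset.disjoint_left]
    intro p h1 h2
    obtain ⟨v, _, rfl⟩ := Finset.mem_image.mp h2
    exact vertex_notMem_inside hn hP v ((hV _).mp h1).1
  have h1 : ∑ x ∈ R, (corners P x).ncard =
      ∑ p ∈ Vc ∪ Finset.univ.image P, (R.filter (fun x => p ∈ ccell P x)).card := by
    rw [Finset.sum_congr rfl fun x _ => corners_eq hV x]
    simp only [Finset.card_filter]
    rw [Finset.sum_comm]
  rw [h1, Finset.sum_union hdisj, Finset.sum_image (fun i _ j _ h => by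
      by_contra hij
      exact hinj i j hij h), add_comm]
  refine add_le_add ?_ ?_
  · calc ∑ v : Fin n, (R.filter (fun x => P v ∈ ccell P x)).card
        ≤ ∑ _v : Fin n, (n - 2) := Finset.sum_le_sum fun v _ =>
          vertex_le hn hP hR v fun x hx => by simpa using hx
      _ = n * (n - 2) := by simp
  · exact Finset.sum_le_sum fun p hp =>
      crossing_le hn hP hR (lns_nonempty ((hV p).mp hp)) fun x hx => by simpa using hx

end Pool.H47.Tri.B2
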