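import Mathlib
import Pool.Agent.H47.Tri.Basic
import Pool.Agent.H41.Tri.B2

/-! # MP_c17047_co, module B3: an upper bound for the number of converging sides -/

set_option autoImplicit false

namespace Pool.H47.Tri.B3

open Pool.H47.Tri Set Filter Topology
open Pool.H47.Tri.B2 (ccell_pos mul_pos_trans dv orient_dv dv_cross_ne)

variable {n : ℕ}

/-! ### Vectors -/

theorem exists_smul {u w : Pt} (hu : u ≠ 0) (h : cross u w = 0) : ∃ t : ℝ, w = t • u := by
  unfold cross at h
  by_cases h1 : u.1 = 0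
  · have h2 : u.2 ≠ 0 := fun h2 => hu (Prod.ext h1 h2)
    refine ⟨w.2 / u.2, Prod.ext ?_ ?_⟩
    · rw [h1] at h
      have h3 : u.2 * w.1 = 0 := by linarith
      have h4 : w.1 = 0 := (mul_eq_zero.mp h3).resolve_left h2
      simp [h1, h4]
    · simp; field_simp
  · refine ⟨w.1 / u.1, Prod.ext ?_ ?_⟩
    · simp; field_simp
    · simp; field_simp; linarith

theorem lex_ne_zero {u : Pt} (hu : LexPos u) : u ≠ 0 := by
  rintro rfl
  rcases hu with h | ⟨_, h⟩ <;> simp at h

theorem lex_smul {u : Pt} (hu : LexPos u) {t : ℝ} (ht : 0 < t) : LexPos (t • u) := by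
  rcases hu with h | ⟨h1, h2⟩
  · exact Or.inl (mul_pos ht h)
  · exact Or.inr ⟨by simp [h1], mul_pos ht h2⟩

theorem lex_pos_of_smul {u : Pt} (hu : LexPos u) {t : ℝ} (h : LexPos (t • u)) : 0 < t := by
  by_contra hneg
  have ht : t ≤ 0 := not_lt.mp hneg
  rcases hu with h1 | ⟨h1, h2⟩
  · rcases h with h3 | ⟨h3, h4⟩
    · simp only [Prod.smul_fst, smul_eq_mul] at h3
      nlinarith
    · simp only [Prod.smul_fst, Prod.smul_snd, smul_eq_mul] at h3 h4
      rcases mul_eq_zero.mp h3 with h5 | h5
      · rw [h5] at h4; simp at h4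
      · linarith
  · rcases h with h3 | ⟨h3, h4⟩
    · simp only [Prod.smul_fst, smul_eq_mul, h1, mul_zero] at h3
      exact lt_irrefl _ h3
    · simp only [Prod.smul_snd, smul_eq_mul] at h4
      nlinarith

theorem lex_total {u : Pt} (hu : u ≠ 0) : LexPos u ∨ LexPos (-u) := by
  rcases lt_trichotomy u.1 0 with h | h | h
  · right; left; simpa using h
  · rcases lt_trichotomy u.2 0 with h2 | h2 | h2
    · right; right; exact ⟨by simpa using h, by simpa using h2⟩
    · exact absurd (Prod.ext h h2) hu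
    · left; right; exact ⟨h, h2⟩
  · left; left; exact h

theorem lex_asymm {u : Pt} (hu : LexPos u) (h : LexPos (-u)) : False := by
  have : LexPos ((-1 : ℝ) • u) := by simpa using h
  have := lex_pos_of_smul hu this
  linarith

theorem pos_multiple {u w : Pt} (hu : LexPos u) (hw : LexPos w) (h : cross u w = 0) :
    ∃ t : ℝ, 0 < t ∧ w = t • u := by
  obtain ⟨t, ht⟩ := exists_smul (lex_ne_zero hu) h
  refine ⟨t, ?_, ht⟩
  rw [ht] at hw
  exact lex_pos_of_smul hu hw

/-! ### Lines -/

theorem factor_pq {a b p q : Pt} (hab : a ≠ b) (hpq : p ≠ q) (hp : orient a b p = 0)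
    (hq : orient a b q = 0) : ∃ s : ℝ, s ≠ 0 ∧ ∀ y, orient a b y = s * orient p q y := by
  obtain ⟨r, hr⟩ := exists_param hab hp
  obtain ⟨r', hr'⟩ := exists_param hab hq
  have hne : r' - r ≠ 0 := by
    intro h
    have : r' = r := by linarith
    rw [this] at hr'
    exact hpq (hr.trans hr'.symm)
  refine ⟨1 / (r' - r), one_div_ne_zero hne, fun y => ?_⟩
  have h1 : orient p q y = (r' - r) * orient a b y := by
    rw [hr, hr']
    simp only [orient, Prod.fst_add, Prod.snd_add, Prod.smul_fst, Prod.smul_snd, smul_eq_mul]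
    ring
  rw [h1]
  field_simp

theorem orient_cross (p q y : Pt) : orient p q y = cross (q - p) (y - p) := by
  unfold orient cross; simp

theorem exists_other (hn : 3 ≤ n) {P : Fin n → Pt} (hP : Ccw P) {r p : Pt} (hr : r ∈ verts P)
    (hpr : p ≠ r) : ∃ k l : Fin n, orient (P k) (P l) r = 0 ∧ orient (P k) (P l) p ≠ 0 := by
  by_contra hcon
  push Not at hcon
  rcases hr with ⟨v, rfl⟩ | hr
  · obtain ⟨a, hav, _⟩ := exists_third hn v v
    obtain ⟨b, hbv, hba⟩ := exists_third hn v a
    have h1 := hcon v a (by simp)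
    have h2 := hcon v b (by simp)
    have h3 : orient (P v) p (P a) = 0 := by
      rw [orient_swap', h1, neg_zero]
    have h4 : orient (P v) p (P b) = 0 := by
      rw [orient_swap', h2, neg_zero]
    obtain ⟨r, hr⟩ := exists_param hpr.symm h3
    obtain ⟨r', hr'⟩ := exists_param hpr.symm h4
    apply orient_ne hP hav.symm hbv.symm hba.symm
    rw [hr, hr']
    simp only [orient, Prod.fst_add, Prod.snd_add, Prod.smul_fst, Prod.smul_snd, smul_eq_mul]
    ring
  · obtain ⟨_, i, j, k, l, hij, hkl, hne, h1, h2⟩ := hr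
    have h3 := hcon i j h1
    have h4 := hcon k l h2
    have h5 := dv_cross_ne hn hP (e := (i, j)) (f := (k, l)) hij hkl hne h1 h2
    have h6 := orient_dv (P := P) (e := (i, j)) h1 p
    have h7 := orient_dv (P := P) (e := (k, l)) h2 p
    simp only at h6 h7
    rw [h3] at h6
    rw [h4] at h7
    have hu : p - r ≠ 0 := sub_ne_zero.mpr hpr
    have h6' : cross (p - r) (dv P (i, j)) = 0 := by
      unfold cross at h6 ⊢; linarith
    have h7' : cross (p - r) (dv P (k, l)) = 0 := by
      unfold cross at h7 ⊢; linarith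
    obtain ⟨s, hs⟩ := exists_smul hu h6'
    obtain ⟨t, ht⟩ := exists_smul hu h7'
    apply h5
    rw [hs, ht]
    unfold cross
    simp
    ring

theorem no_between (hn : 3 ≤ n) {P : Fin n → Pt} (hP : Ccw P) {x p q r : Pt}
    (hx : x ∈ offLines P) (hp : p ∈ ccell P x) (hq : q ∈ ccell P x) (hpq : p ≠ q)
    (hr : r ∈ verts P) {t : ℝ} (ht0 : 0 < t) (ht1 : t < 1) (hrt : r = (1 - t) • p + t • q) :
    False := by
  have hpr : p ≠ r := by
    intro h
    apply hpq
    have h1 : r - p = t • (q - p) := by rw [hrt]; module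
    rw [← h, sub_self] at h1
    rcases smul_eq_zero.mp h1.symm with h2 | h2
    · linarith
    · exact (sub_eq_zero.mp h2).symm
  obtain ⟨k, l, h1, h2⟩ := exists_other hn hP hr hpr
  have h3 := ccell_pos hx hp h2
  have h4 := hq k l
  rw [hrt, orient_param] at h1
  have h5 : orient (P k) (P l) x * ((1 - t) * orient (P k) (P l) p + t * orient (P k) (P l) q)
      = 0 := by rw [h1, mul_zero]
  have h6 : 0 < (1 - t) * (orient (P k) (P l) x * orient (P k) (P l) p) :=
    mul_pos (by linarith) h3
  have h7 : 0 ≤ t * (orient (P k) (P l) x * orient (P k) (P l) q) := mul_nonneg ht0.le h4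
  nlinarith

/-- Adjacent arrangement vertices (as far as we need). -/
def Edge (P : Fin n → Pt) (p q : Pt) : Prop :=
  ∃ x, x ∈ offLines P ∧ p ∈ corners P x ∧ q ∈ corners P x ∧ p ≠ q ∧ OnLine P p q

theorem Edge.symm {P : Fin n → Pt} {p q : Pt} (h : Edge P p q) : Edge P q p := by
  obtain ⟨x, h1, h2, h3, h4, i, j, h5, h6, h7⟩ := h
  exact ⟨x, h1, h3, h2, h4.symm, i, j, h5, h7, h6⟩

theorem edge_unique (hn : 3 ≤ n) {P : Fin n → Pt} (hP : Ccw P) {p q q' : Pt}
    (h : Edge P p q) (h' : Edge P p q') {t : ℝ} (ht : 0 < t) (hq : q' - p = t • (q - p)) :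
    q = q' := by
  obtain ⟨x, hx, hp, hqc, hpq, -⟩ := h
  obtain ⟨x', hx', hp', hqc', hpq', -⟩ := h'
  rcases lt_trichotomy t 1 with h1 | h1 | h1
  · exfalso
    refine no_between hn hP hx hp.2 hqc.2 hpq hqc'.1 ht h1 ?_
    have : q' = p + t • (q - p) := by rw [← hq]; abel
    rw [this]; module
  · rw [h1, one_smul] at hq
    exact (sub_left_inj.mp hq).symm
  · exfalso
    refine no_between hn hP hx' hp'.2 hqc'.2 hpq' hqc.1 (t := 1 / t) (by positivity)
      (by rw [div_lt_one ht]; exact h1) ?_
    have h2 : q - p = (1 / t) • (q' - p) := by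
      rw [hq, smul_smul, one_div, inv_mul_cancel₀ ht.ne', one_smul]
    have : q = p + (1 / t) • (q' - p) := by rw [← h2]; abel
    conv_lhs => rw [this]
    module

/-- Neighbours of a crossing point on one side. -/
theorem crossing_nbrs (hn : 3 ≤ n) {P : Fin n → Pt} (hP : Ccw P) {p : Pt} {S : Finset Pt}
    {s : ℝ} (hs : s ≠ 0) (hS : ∀ q ∈ S, Edge P p q ∧ LexPos (s • (q - p)))
    (hne : (lns P p).Nonempty) : S.card ≤ (lns P p).card := by
  have : Nonempty (Fin n × Fin n) := ⟨hne.choose⟩
  have hex : ∀ q ∈ S, ∃ e ∈ lns P p, orient (P e.1) (P e.2) q = 0 := by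
    intro q hq
    obtain ⟨⟨x, _, _, _, _, i, j, hij, h1, h2⟩, _⟩ := hS q hq
    exact ⟨(i, j), by simp [lns, hij, h1], h2⟩
  choose! g hg1 hg2 using hex
  refine Finset.card_le_card_of_injOn g (fun q hq => hg1 q hq) ?_
  intro q hq q' hq' hgg
  obtain ⟨he, hl⟩ := hS q hq
  obtain ⟨he', hl'⟩ := hS q' hq'
  have hgl : (g q).1 < (g q).2 ∧ orient (P (g q).1) (P (g q).2) p = 0 := by
    simpa [lns] using hg1 q hq
  have h1 := hg2 q hq
  have h2 := hg2 q' hq'
  rw [← hgg] at h2
  rw [orient_dv hgl.2] at h1 h2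
  have hd : dv P (g q) ≠ 0 := by
    unfold dv
    exact sub_ne_zero.mpr (ccw_ne hn hP hgl.1.ne').symm.symm
  obtain ⟨a, ha⟩ := exists_smul hd h1
  obtain ⟨b, hb⟩ := exists_smul hd h2
  have hcr : cross (s • (q - p)) (s • (q' - p)) = 0 := by
    rw [ha, hb]
    unfold cross
    simp
    ring
  obtain ⟨t, ht, htt⟩ := pos_multiple hl hl' hcr
  refine edge_unique hn hP he he' ht ?_
  have h3 : s • (q' - p - t • (q - p)) = 0 := by
    rw [smul_sub, htt, smul_comm s t, sub_self]
  rcases smul_eq_zero.mp h3 with h4 | h4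
  · exact absurd h4 hs
  · exact sub_eq_zero.mp h4

theorem corner_closedHull {P : Fin n → Pt} {x p : Pt} (hp : p ∈ corners P x) :
    p ∈ closedHull P := by
  rcases hp.1 with ⟨v, rfl⟩ | hp
  · exact vertex_mem_closedHull P v
  · exact inside_sub_closedHull P hp.1

/-- An edge at a polygon vertex points to another polygon vertex. -/
theorem vertex_edge (hn : 3 ≤ n) {P : Fin n → Pt} (hP : Ccw P) {v : Fin n} {q : Pt}
    (h : Edge P (P v) q) : ∃ w, w ≠ v ∧ ∃ t : ℝ, 0 < t ∧ q - P v = t • (P w - P v) := by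
  obtain ⟨x, _, _, hq, hne, i, j, hij, h1, h2⟩ := h
  have hv : v = i ∨ v = j := by
    by_contra hcon
    push Not at hcon
    exact orient_ne hP hij.ne hcon.1.symm hcon.2.symm h1
  have key : ∀ w, w ≠ v → orient (P v) (P w) q = 0 →
      ∃ w, w ≠ v ∧ ∃ t : ℝ, 0 < t ∧ q - P v = t • (P w - P v) := by
    intro w hw h0
    obtain ⟨t, ht0, ht1, ht⟩ := mem_segment_of_closedHull hn hP hw.symm (corner_closedHull hq) h0
    refine ⟨w, hw, t, ?_, ?_⟩
    · rcases ht0.lt_or_eq with h | h
      · exact h
      · exfalso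
        apply hne
        rw [ht, ← h]
        simp
    · rw [ht]; module
  rcases hv with rfl | rfl
  · exact key j hij.ne' h2
  · exact key i hij.ne (by rw [orient_swap, h2, neg_zero])

/-- Neighbours of a polygon vertex on one side. -/
theorem vertex_nbrs (hn : 3 ≤ n) {P : Fin n → Pt} (hP : Ccw P) {v : Fin n} {S : Finset Pt}
    {s : ℝ} (_hs : s ≠ 0) (hS : ∀ q ∈ S, Edge P (P v) q ∧ LexPos (s • (q - P v)))
    {T : Finset (Fin n)} (hT : ∀ q ∈ S, ∀ w, w ≠ v → ∀ t : ℝ, 0 < t →
      q - P v = t • (P w - P v) → w ∈ T) : S.card ≤ T.card := by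
  have : Nonempty (Fin n) := ⟨v⟩
  have hex : ∀ q ∈ S, ∃ w, w ≠ v ∧ ∃ t : ℝ, 0 < t ∧ q - P v = t • (P w - P v) :=
    fun q hq => vertex_edge hn hP (hS q hq).1
  choose! g hg1 hg2 using hex
  refine Finset.card_le_card_of_injOn g ?_ ?_
  · intro q hq
    obtain ⟨t, ht, htq⟩ := hg2 q hq
    exact hT q hq _ (hg1 q hq) t ht htq
  · intro q hq q' hq' hgg
    obtain ⟨t, ht, htq⟩ := hg2 q hq
    obtain ⟨t', ht', htq'⟩ := hg2 q' hq'
    rw [← hgg] at htq'
    refine edge_unique hn hP (hS q hq).1 (hS q' hq').1 (t := t' / t) (by positivity) ?_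
    rw [htq', htq, smul_smul, div_mul_cancel₀ _ ht.ne']

/-! ### Doubly flagged edges -/

theorem third_line {P : Fin n → Pt} {p : Pt} (hk : (lns P p).card = 2)
    {e0 e1 e2 : Fin n × Fin n} (h0 : e0 ∈ lns P p) (h1 : e1 ∈ lns P p) (h2 : e2 ∈ lns P p)
    (h10 : e1 ≠ e0) (h20 : e2 ≠ e0) : e1 = e2 := by
  classical
  by_contra hne
  have h3 : ({e0, e1, e2} : Finset (Fin n × Fin n)) ⊆ lns P p := by
    intro e he
    simp only [Finset.mem_insert, Finset.mem_singleton] at he
    rcases he with rfl | rfl | rfl <;> assumption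
  have h4 := Finset.card_le_card h3
  rw [Finset.card_eq_three.mpr ⟨e0, e1, e2, h10.symm, h20.symm, hne, rfl⟩] at h4
  omega

theorem onLine_lns {P : Fin n → Pt} {p q : Pt} (h : OnLine P p q) :
    ∃ e ∈ lns P p, orient (P e.1) (P e.2) q = 0 := by
  obtain ⟨i, j, hij, h1, h2⟩ := h
  exact ⟨(i, j), by simp [lns, hij, h1], h2⟩

/-- At a simple crossing `p`, points on both sides of the line `p q` lie on the other line. -/
theorem opposite (hn : 3 ≤ n) {P : Fin n → Pt} (hP : Ccw P) {p q a b : Pt}
    (hk : (lns P p).card = 2) (hpq : p ≠ q) (hq : OnLine P p q) (ha : OnLine P p a)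
    (hb : OnLine P p b) (h1 : 0 < orient p q a) (h2 : orient p q b < 0) :
    ∃ t : ℝ, t < 0 ∧ b - p = t • (a - p) := by
  obtain ⟨e0, h0, hq0⟩ := onLine_lns hq
  obtain ⟨e1, h1', ha1⟩ := onLine_lns ha
  obtain ⟨e2, h2', hb2⟩ := onLine_lns hb
  have hl : ∀ e ∈ lns P p, e.1 < e.2 ∧ orient (P e.1) (P e.2) p = 0 := by
    intro e he
    simpa [lns] using he
  obtain ⟨s, hs, hsy⟩ := factor_pq (ccw_ne hn hP (hl e0 h0).1.ne) hpq (hl e0 h0).2 hq0
  have h10 : e1 ≠ e0 := by
    rintro rfl
    rw [hsy] at ha1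
    exact (mul_ne_zero hs h1.ne') ha1
  have h20 : e2 ≠ e0 := by
    rintro rfl
    rw [hsy] at hb2
    exact (mul_ne_zero hs h2.ne) hb2
  have h12 := third_line hk h0 h1' h2' h10 h20
  subst h12
  have hd : dv P e1 ≠ 0 := by
    unfold dv
    exact sub_ne_zero.mpr (ccw_ne hn hP (hl e1 h1').1.ne').symm.symm
  rw [orient_dv (hl e1 h1').2] at ha1 hb2
  obtain ⟨α, hα⟩ := exists_smul hd ha1
  obtain ⟨β, hβ⟩ := exists_smul hd hb2
  rw [orient_cross, hα] at h1
  rw [orient_cross, hβ] at h2
  have hc1 : cross (q - p) (α • dv P e1) = α * cross (q - p) (dv P e1) := by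
    unfold cross; simp; ring
  have hc2 : cross (q - p) (β • dv P e1) = β * cross (q - p) (dv P e1) := by
    unfold cross; simp; ring
  rw [hc1] at h1
  rw [hc2] at h2
  have hα0 : α ≠ 0 := by
    rintro rfl
    rw [zero_mul] at h1
    exact lt_irrefl _ h1
  refine ⟨β / α, ?_, ?_⟩
  · have h3 : (α * cross (q - p) (dv P e1)) * (β * cross (q - p) (dv P e1)) < 0 :=
      mul_neg_of_pos_of_neg h1 h2
    have h4 : 0 ≤ (cross (q - p) (dv P e1)) ^ 2 := sq_nonneg _
    have h5 : α * β < 0 := by
      by_contra hneg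
      have h6 : 0 ≤ (α * β) * (cross (q - p) (dv P e1)) ^ 2 := mul_nonneg (not_lt.mp hneg) h4
      nlinarith
    have h6 : β / α = (α * β) / α ^ 2 := by field_simp
    rw [h6]
    exact div_neg_of_neg_of_pos h5 (by positivity)
  · rw [hα, hβ, smul_smul, div_mul_cancel₀ _ hα0]

theorem double_flag (hn : 3 ≤ n) {P : Fin n → Pt} (hP : Ccw P) {x x' p q : Pt}
    (h : Flag P x p q) (h' : Flag P x' q p) (hp : (lns P p).card = 2)
    (hq : (lns P q).card = 2) : False := by
  obtain ⟨_, _, hpq, hon, _, a, b, _, _, hpa, hqb, ha, hb, hc⟩ := h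
  obtain ⟨_, _, _, hon', _, a', b', _, _, hqa', hpb', ha', hb', hc'⟩ := h'
  have hb'' : orient p q b' < 0 := by
    have : orient p q b' = - orient q p b' := by unfold orient; ring
    rw [this]; linarith
  have ha'' : 0 < orient q p a' := ha'
  have hb3 : orient q p b < 0 := by
    have : orient q p b = - orient p q b := by unfold orient; ring
    rw [this]; linarith
  obtain ⟨α, hα, hα'⟩ := opposite hn hP hp hpq hon hpa hpb' ha hb''
  obtain ⟨β, hβ, hβ'⟩ := opposite hn hP hq hpq.symm hon' hqa' hqb ha'' hb3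
  -- b' - p = α (a - p), b - q = β (a' - q)
  have hcr : cross (a - p) (b - q) = - (β * cross (a' - q) (a - p)) := by
    rw [hβ']
    unfold cross
    simp
    ring
  have hcr' : cross (a' - q) (b' - p) = α * cross (a' - q) (a - p) := by
    rw [hα']
    unfold cross
    simp
    ring
  rcases hc with hc | ⟨hc, hlex⟩
  · rw [hcr] at hc
    have h1 : 0 < cross (a' - q) (a - p) := by
      by_contra hneg
      have : 0 ≤ β * cross (a' - q) (a - p) := mul_nonneg_of_nonpos_of_nonpos hβ.le
        (not_lt.mp hneg)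
      linarith
    have h2 : cross (a' - q) (b' - p) < 0 := by
      rw [hcr']
      exact mul_neg_of_neg_of_pos hα h1
    rcases hc' with h3 | ⟨h3, _⟩ <;> linarith
  · have h0 : cross (a' - q) (a - p) = 0 := by
      rw [hcr] at hc
      have : β * cross (a' - q) (a - p) = 0 := by linarith
      exact (mul_eq_zero.mp this).resolve_left hβ.ne
    rcases hc' with h3 | ⟨_, hlex'⟩
    · rw [hcr', h0, mul_zero] at h3
      exact lt_irrefl _ h3
    · obtain ⟨t, ht, htt⟩ := pos_multiple hlex' hlex h0
      -- a - p = t (a' - q), b - q = β (a' - q)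
      have h4 : orient p q b = cross (q - p) (b - q) := by
        unfold orient cross; simp; ring
      have h5 : orient p q a = cross (q - p) (a - p) := orient_cross p q a
      rw [h4, hβ'] at hb
      rw [h5, htt] at ha
      have h6 : cross (q - p) (β • (a' - q)) = β * cross (q - p) (a' - q) := by
        unfold cross; simp; ring
      have h7 : cross (q - p) (t • (a' - q)) = t * cross (q - p) (a' - q) := by
        unfold cross; simp; ring
      rw [h6] at hb
      rw [h7] at ha
      have h8 : 0 < cross (q - p) (a' - q) := by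
        by_contra hneg
        have : t * cross (q - p) (a' - q) ≤ 0 :=
          mul_nonpos_of_nonneg_of_nonpos ht.le (not_lt.mp hneg)
        linarith
      have := mul_neg_of_neg_of_pos hβ h8
      linarith

/-- Doubly flagged edges at a polygon vertex are not on a side of the polygon. -/
theorem double_side {P : Fin n → Pt} {x x' q : Pt} {v w : Fin n}
    (hx : x ∈ offLines P) (hx' : x' ∈ offLines P) (h : Flag P x (P v) q)
    (h' : Flag P x' q (P v)) {t : ℝ} (ht : 0 < t) (hq : q - P v = t • (P w - P v)) :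
    ¬ IsSide P v w ∧ ¬ IsSide P w v := by
  obtain ⟨_, _, _, _, h1, _⟩ := h
  obtain ⟨_, _, _, _, h2, _⟩ := h'
  have key : ∀ y, orient (P v) q y = t * orient (P v) (P w) y := by
    intro y
    rw [orient_cross, hq, orient_cross]
    unfold cross
    simp
    ring
  rw [key] at h1
  have h3 : orient q (P v) x' = - orient (P v) q x' := by unfold orient; ring
  rw [h3, key] at h2
  constructor
  · intro hs
    have := mul_pos ht (mem_inside.mp hx'.1 v w hs)
    linarith
  · intro hs
    have h4 := mem_inside.mp hx.1 w v hs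
    rw [orient_swap] at h4
    have := mul_pos ht h4
    linarith

/-! ### Counting -/

theorem sum_lex (hn : 3 ≤ n) {P : Fin n → Pt} (hP : Ccw P) [DecidableEq (Fin n)]
    (T : Fin n → Finset (Fin n)) (hT : ∀ v w, w ∈ T v ↔ LexPos (P w - P v)) :
    ∑ v, (T v).card = n.choose 2 := by
  have h1 : ∀ v, (T v).card = ∑ w, if w ∈ T v then 1 else 0 := by
    intro v
    rw [← Finset.card_filter]
    congr 1
    ext w
    simp
  have h2 : ∑ v, (T v).card = ∑ v, ∑ w, if w ∈ T v then 1 else 0 :=
    Finset.sum_congr rfl fun v _ => h1 v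
  have h3 : ∑ v, (T v).card = ∑ v, ∑ w, if v ∈ T w then 1 else 0 := by
    rw [h2, Finset.sum_comm]
  have h4 : ∀ v w : Fin n, ((if w ∈ T v then 1 else 0) + (if v ∈ T w then 1 else 0) : ℕ)
      = if v = w then 0 else 1 := by
    intro v w
    by_cases hvw : v = w
    · subst hvw
      have : v ∉ T v := by
        rw [hT]
        intro h
        exact lex_ne_zero h (sub_self _)
      simp [this]
    · rw [if_neg hvw]
      have hne : P w - P v ≠ 0 := sub_ne_zero.mpr (ccw_ne hn hP (Ne.symm hvw))
      rcases lex_total hne with h | h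
      · have h5 : w ∈ T v := (hT v w).mpr h
        have h6 : v ∉ T w := by
          rw [hT]
          intro h'
          exact lex_asymm h (by simpa using h')
        rw [if_pos h5, if_neg h6]
      · have h5 : v ∈ T w := (hT w v).mpr (by simpa using h)
        have h6 : w ∉ T v := by
          rw [hT]
          intro h'
          exact lex_asymm h' h
        rw [if_pos h5, if_neg h6]
  have h5 : 2 * ∑ v, (T v).card = n * (n - 1) := by
    calc 2 * ∑ v, (T v).card = ∑ v, (T v).card + ∑ v, (T v).card := two_mul _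
      _ = (∑ v, ∑ w, if w ∈ T v then 1 else 0) + ∑ v, ∑ w, if v ∈ T w then 1 else 0 := by
          rw [← h2, ← h3]
      _ = ∑ v : Fin n, ∑ w : Fin n, if v = w then 0 else 1 := by
          rw [← Finset.sum_add_distrib]
          refine Finset.sum_congr rfl fun v _ => ?_
          rw [← Finset.sum_add_distrib]
          exact Finset.sum_congr rfl fun w _ => h4 v w
      _ = n * (n - 1) := by
          have h5 : ∀ v : Fin n, (∑ w : Fin n, if v = w then 0 else 1) = n - 1 := by
            intro v
            have h6 : (∑ w : Fin n, if v = w then 0 else 1) =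
                (Finset.univ.filter (fun w : Fin n => ¬ v = w)).card := by
              rw [Finset.card_filter]
              refine Finset.sum_congr rfl fun w _ => ?_
              by_cases h : v = w <;> simp [h]
            rw [h6, Finset.filter_ne, Finset.card_erase_of_mem (Finset.mem_univ v)]
            simp
          rw [Finset.sum_congr rfl fun v _ => h5 v]
          simp
  have h10 : n.choose 2 * 2 = n * (n - 1) := by
    rw [Nat.choose_two_right]
    exact Nat.div_mul_cancel (Nat.even_mul_pred_self n).two_dvd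
  omega

theorem flag_edge {P : Fin n → Pt} {x p q : Pt} (hx : x ∈ offLines P) (h : Flag P x p q) :
    Edge P p q := ⟨x, hx, h.1, h.2.1, h.2.2.1, h.2.2.2.1⟩

theorem flag_unique (hn : 3 ≤ n) {P : Fin n → Pt} (hP : Ccw P) {R : Finset Pt} (hR : IsReps P R)
    {x y p q : Pt} (hx : x ∈ R) (hy : y ∈ R) (h : Flag P x p q) (h' : Flag P y p q) : x = y := by
  refine hR.uniq x hx y hy ?_
  intro i j hij
  have hxo := hR.off x hx
  have hyo := hR.off y hy
  by_cases hp : orient (P i) (P j) p = 0
  · by_cases hq : orient (P i) (P j) q = 0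
    · obtain ⟨s, hs, hsy⟩ := factor_pq (ccw_ne hn hP hij) h.2.2.1 hp hq
      rw [hsy, hsy]
      have h1 := h.2.2.2.2.1
      have h2 := h'.2.2.2.2.1
      have : s * orient p q x * (s * orient p q y) = s ^ 2 * (orient p q x * orient p q y) := by
        ring
      rw [this]
      positivity
    · exact mul_pos_trans (ccell_pos hxo h.2.1.2 hq) (ccell_pos hyo h'.2.1.2 hq)
  · exact mul_pos_trans (ccell_pos hxo h.1.2 hp) (ccell_pos hyo h'.1.2 hp)

theorem lns_nonempty {P : Fin n → Pt} {p : Pt} (hp : p ∈ crossings P) : (lns P p).Nonempty := by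
  obtain ⟨_, i, j, k, l, hij, _, _, h0, _⟩ := hp
  exact ⟨(i, j), by simp [lns, hij, h0]⟩

open Classical in
theorem flags_le (hn : 3 ≤ n) {P : Fin n → Pt} (hP : Ccw P) {R Vc : Finset Pt} (hR : IsReps P R)
    (hV : IsCross P Vc) :
    ∑ x ∈ R, {e : Pt × Pt | Flag P x e.1 e.2}.ncard ≤ n.choose 2 + n * (n - 3) +
      ∑ p ∈ Vc, ((lns P p).card + if (lns P p).card = 2 then 0 else 2 * (lns P p).card) := by
  have hinj : ∀ i j, i ≠ j → P i ≠ P j := fun i j hij => ccw_ne hn hP hij
  set V : Finset Pt := Vc ∪ Finset.univ.image P with hVdef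
  have hmemV : ∀ p, p ∈ V ↔ p ∈ verts P := by
    intro p
    simp only [hVdef, verts, Finset.mem_union, Finset.mem_image, Finset.mem_univ, true_and,
      Set.mem_union, Set.mem_range, hV p]
    tauto
  have hdisj : Disjoint Vc (Finset.univ.image P) := by
    rw [Finset.disjoint_left]
    intro p h1 h2
    obtain ⟨v, _, rfl⟩ := Finset.mem_image.mp h2
    exact vertex_notMem_inside hn hP v ((hV _).mp h1).1
  have hsumV : ∀ f : Pt → ℕ, ∑ p ∈ V, f p = ∑ p ∈ Vc, f p + ∑ v : Fin n, f (P v) := by
    intro f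
    rw [hVdef, Finset.sum_union hdisj, Finset.sum_image (fun i _ j _ h => by
      by_contra hij
      exact hinj i j hij h)]
  -- the set of all flagged pairs
  set Φ : Finset (Pt × Pt) := (V ×ˢ V).filter (fun e => ∃ x ∈ R, Flag P x e.1 e.2) with hΦ
  have hΦmem : ∀ e : Pt × Pt, e ∈ Φ ↔ ∃ x ∈ R, Flag P x e.1 e.2 := by
    intro e
    rw [hΦ, Finset.mem_filter, Finset.mem_product, hmemV, hmemV]
    constructor
    · exact fun h => h.2
    · rintro ⟨x, hx, h⟩
      exact ⟨⟨h.1.1, h.2.1.1⟩, x, hx, h⟩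
  have hstep1 : ∑ x ∈ R, {e : Pt × Pt | Flag P x e.1 e.2}.ncard ≤ Φ.card := by
    have h1 : ∀ x ∈ R, {e : Pt × Pt | Flag P x e.1 e.2}.ncard =
        ((V ×ˢ V).filter (fun e => Flag P x e.1 e.2)).card := by
      intro x _
      rw [← Set.ncard_coe_finset]
      congr 1
      ext e
      simp only [Finset.coe_filter, Finset.mem_product, Set.mem_ofPred_eq, hmemV]
      constructor
      · exact fun h => ⟨⟨h.1.1, h.2.1.1⟩, h⟩
      · exact fun h => h.2
    rw [Finset.sum_congr rfl h1]
    simp only [Finset.card_filter]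
    rw [Finset.sum_comm, hΦ, Finset.card_filter]
    refine Finset.sum_le_sum fun e _ => ?_
    rw [← Finset.card_filter]
    by_cases h : ∃ x ∈ R, Flag P x e.1 e.2
    · rw [if_pos h, Finset.card_le_one]
      intro x hx y hy
      rw [Finset.mem_filter] at hx hy
      exact flag_unique hn hP hR hx.1 hy.1 hx.2 hy.2
    · rw [if_neg h, Nat.le_zero, Finset.card_eq_zero, Finset.filter_eq_empty_iff]
      intro x hx hf
      exact h ⟨x, hx, hf⟩
  -- forward edges and doubly flagged edges
  set Ef : Finset (Pt × Pt) := (V ×ˢ V).filter (fun e => Edge P e.1 e.2 ∧ LexPos (e.2 - e.1))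
    with hEf
  set D : Finset (Pt × Pt) := (V ×ˢ V).filter (fun e => e ∈ Φ ∧ (e.2, e.1) ∈ Φ ∧
    LexPos (e.2 - e.1)) with hD
  have hΦV : ∀ e ∈ Φ, e.1 ∈ V ∧ e.2 ∈ V ∧ Edge P e.1 e.2 ∧ e.1 ≠ e.2 := by
    intro e he
    obtain ⟨x, hx, h⟩ := (hΦmem e).mp he
    exact ⟨(hmemV _).mpr h.1.1, (hmemV _).mpr h.2.1.1, flag_edge (hR.off x hx) h, h.2.2.1⟩
  have hstep2 : Φ.card ≤ Ef.card + D.card := by
    set A := Φ.filter (fun e => LexPos (e.2 - e.1)) with hA
    set B := (Φ.filter (fun e => ¬ LexPos (e.2 - e.1))).image Prod.swap with hB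
    have h1 : Φ.card = A.card + B.card := by
      rw [hB, Finset.card_image_of_injective _ Prod.swap_injective, hA,
        Finset.card_filter_add_card_filter_not]
    have h2 : (A ∪ B).card + (A ∩ B).card = A.card + B.card := Finset.card_union_add_card_inter A B
    have h3 : A ∪ B ⊆ Ef := by
      intro e he
      rcases Finset.mem_union.mp he with h | h
      · rw [hA, Finset.mem_filter] at h
        obtain ⟨h4, h5, h6, _⟩ := hΦV e h.1
        rw [hEf, Finset.mem_filter, Finset.mem_product]
        exact ⟨⟨h4, h5⟩, h6, h.2⟩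
      · rw [hB, Finset.mem_image] at h
        obtain ⟨f, hf, rfl⟩ := h
        rw [Finset.mem_filter] at hf
        obtain ⟨h4, h5, h6, h7⟩ := hΦV f hf.1
        rw [hEf, Finset.mem_filter, Finset.mem_product]
        refine ⟨⟨h5, h4⟩, h6.symm, ?_⟩
        rcases lex_total (sub_ne_zero.mpr h7.symm) with h8 | h8
        · exact absurd h8 hf.2
        · simpa using h8
    have h4 : A ∩ B ⊆ D := by
      intro e he
      rw [Finset.mem_inter, hA, hB, Finset.mem_filter, Finset.mem_image] at he
      obtain ⟨⟨h5, h6⟩, f, hf, hfe⟩ := he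
      rw [Finset.mem_filter] at hf
      obtain ⟨h7, h8, _, _⟩ := hΦV e h5
      rw [hD, Finset.mem_filter, Finset.mem_product]
      refine ⟨⟨h7, h8⟩, h5, ?_, h6⟩
      rw [← hfe]
      exact hf.1
    have h5 := Finset.card_le_card h3
    have h6 := Finset.card_le_card h4
    omega
  -- count of forward edges
  have hEfcard : Ef.card = ∑ p ∈ V, (V.filter (fun q => Edge P p q ∧ LexPos (q - p))).card := by
    rw [hEf, Finset.card_filter, Finset.sum_product]
    refine Finset.sum_congr rfl fun p _ => ?_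
    rw [Finset.card_filter]
  let T : Fin n → Finset (Fin n) := fun v => Finset.univ.filter (fun w => LexPos (P w - P v))
  have hTmem : ∀ v w, w ∈ T v ↔ LexPos (P w - P v) := fun v w => by simp [T]
  have hsumT : ∑ v, (T v).card = n.choose 2 := sum_lex hn hP T hTmem
  have hstep3 : Ef.card ≤ ∑ p ∈ Vc, (lns P p).card + n.choose 2 := by
    rw [hEfcard, hsumV, ← hsumT]
    refine add_le_add (Finset.sum_le_sum fun p hp => ?_) (Finset.sum_le_sum fun v _ => ?_)
    · refine crossing_nbrs hn hP (s := 1) one_ne_zero ?_ (lns_nonempty ((hV p).mp hp))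
      intro q hq
      rw [Finset.mem_filter] at hq
      exact ⟨hq.2.1, by simpa using hq.2.2⟩
    · refine vertex_nbrs hn hP (v := v) (s := 1) one_ne_zero ?_ ?_
      · intro q hq
        rw [Finset.mem_filter] at hq
        exact ⟨hq.2.1, by simpa using hq.2.2⟩
      · intro q hq w _ t ht htq
        rw [Finset.mem_filter] at hq
        rw [hTmem]
        have h1 : P w - P v = (1 / t) • (q - P v) := by
          rw [htq, smul_smul, one_div, inv_mul_cancel₀ ht.ne', one_smul]
        rw [h1]
        exact lex_smul hq.2.2 (by positivity)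
  -- count of doubly flagged edges
  have hDmem : ∀ e ∈ D, e.1 ∈ V ∧ e.2 ∈ V ∧ (∃ x ∈ R, Flag P x e.1 e.2) ∧
      (∃ x ∈ R, Flag P x e.2 e.1) ∧ LexPos (e.2 - e.1) := by
    intro e he
    rw [hD, Finset.mem_filter, Finset.mem_product] at he
    obtain ⟨⟨h1, h2⟩, h3, h4, h5⟩ := he
    exact ⟨h1, h2, (hΦmem _).mp h3, (hΦmem _).mp h4, h5⟩
  set bad : Pt → Prop := fun p => p ∈ Set.range P ∨ (lns P p).card ≠ 2 with hbad
  have hDle : D.card ≤ ∑ p ∈ V, (V.filter (fun q => bad p ∧ (p, q) ∈ D)).card +
      ∑ q ∈ V, (V.filter (fun p => bad q ∧ (p, q) ∈ D)).card := by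
    have h1 : ∑ p ∈ V, (V.filter (fun q => bad p ∧ (p, q) ∈ D)).card =
        ((V ×ˢ V).filter (fun e => bad e.1 ∧ (e.1, e.2) ∈ D)).card := by
      rw [Finset.card_filter, Finset.sum_product]
      exact Finset.sum_congr rfl fun p _ => by rw [Finset.card_filter]
    have h2 : ∑ q ∈ V, (V.filter (fun p => bad q ∧ (p, q) ∈ D)).card =
        ((V ×ˢ V).filter (fun e => bad e.2 ∧ (e.1, e.2) ∈ D)).card := by
      rw [Finset.card_filter, Finset.sum_product, Finset.sum_comm]
      exact Finset.sum_congr rfl fun p _ => by rw [Finset.card_filter]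
    rw [h1, h2]
    have h3 : D ⊆ ((V ×ˢ V).filter (fun e => bad e.1 ∧ (e.1, e.2) ∈ D)) ∪
        ((V ×ˢ V).filter (fun e => bad e.2 ∧ (e.1, e.2) ∈ D)) := by
      intro e he
      obtain ⟨h4, h5, ⟨x, hx, h6⟩, ⟨x', hx', h7⟩, _⟩ := hDmem e he
      by_cases hb1 : bad e.1
      · exact Finset.mem_union_left _
          (Finset.mem_filter.mpr ⟨Finset.mem_product.mpr ⟨h4, h5⟩, hb1, he⟩)
      · by_cases hb2 : bad e.2
        · exact Finset.mem_union_right _
            (Finset.mem_filter.mpr ⟨Finset.mem_product.mpr ⟨h4, h5⟩, hb2, he⟩)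
        · exfalso
          simp only [hbad, not_or, not_not] at hb1 hb2
          exact double_flag hn hP h6 h7 hb1.2 hb2.2
    exact (Finset.card_le_card h3).trans (Finset.card_union_le _ _)
  let T1 : Fin n → Finset (Fin n) := fun v => Finset.univ.filter
    (fun w => LexPos (P w - P v) ∧ ¬ IsSide P v w ∧ ¬ IsSide P w v)
  let T2 : Fin n → Finset (Fin n) := fun v => Finset.univ.filter
    (fun w => LexPos (P v - P w) ∧ ¬ IsSide P v w ∧ ¬ IsSide P w v)
  have hT12 : ∀ v, (T1 v).card + (T2 v).card ≤ n - 3 := by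
    intro v
    obtain ⟨s, hs⟩ := exists_succ hn hP v
    obtain ⟨h, hh⟩ := exists_pred hn hP v
    have hsh : s ≠ h := by
      rintro rfl
      exact hs.asymm hn hh
    have hdis : Disjoint (T1 v) (T2 v) := by
      rw [Finset.disjoint_left]
      intro w h1 h2
      simp only [T1, T2, Finset.mem_filter, Finset.mem_univ, true_and] at h1 h2
      exact lex_asymm h1.1 (by simpa using h2.1)
    rw [← Finset.card_union_of_disjoint hdis]
    have hsub : T1 v ∪ T2 v ⊆ ((Finset.univ.erase v).erase s).erase h := by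
      intro w hw
      have hw' : w ≠ v ∧ ¬ IsSide P v w ∧ ¬ IsSide P w v := by
        rcases Finset.mem_union.mp hw with h1 | h1
        · simp only [T1, Finset.mem_filter, Finset.mem_univ, true_and] at h1
          refine ⟨?_, h1.2⟩
          rintro rfl
          exact lex_ne_zero h1.1 (sub_self _)
        · simp only [T2, Finset.mem_filter, Finset.mem_univ, true_and] at h1
          refine ⟨?_, h1.2⟩
          rintro rfl
          exact lex_ne_zero h1.1 (sub_self _)
      simp only [Finset.mem_erase, Finset.mem_univ, and_true]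
      refine ⟨?_, ?_, hw'.1⟩
      · rintro rfl
        exact hw'.2.2 hh
      · rintro rfl
        exact hw'.2.1 hs
    refine (Finset.card_le_card hsub).trans ?_
    rw [Finset.card_erase_of_mem, Finset.card_erase_of_mem, Finset.card_erase_of_mem
      (Finset.mem_univ v)]
    · simp only [Finset.card_univ, Fintype.card_fin]
      omega
    · rw [Finset.mem_erase]
      exact ⟨hs.1.symm, Finset.mem_univ s⟩
    · rw [Finset.mem_erase, Finset.mem_erase]
      exact ⟨hsh.symm, hh.1, Finset.mem_univ h⟩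
  have hstep4 : D.card ≤ ∑ p ∈ Vc, (if (lns P p).card = 2 then 0 else 2 * (lns P p).card) +
      n * (n - 3) := by
    refine hDle.trans ?_
    rw [← Finset.sum_add_distrib, hsumV]
    refine add_le_add (Finset.sum_le_sum fun p hp => ?_) ?_
    · have hpc := (hV p).mp hp
      by_cases hk : (lns P p).card = 2
      · rw [if_pos hk]
        have hnb : ¬ bad p := by
          simp only [hbad, not_or, not_not]
          refine ⟨?_, hk⟩
          rintro ⟨v, rfl⟩
          exact vertex_notMem_inside hn hP v hpc.1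
        have h1 : V.filter (fun q => bad p ∧ (p, q) ∈ D) = ∅ := by
          rw [Finset.filter_eq_empty_iff]
          intro q _ h
          exact hnb h.1
        have h2 : V.filter (fun q => bad p ∧ (q, p) ∈ D) = ∅ := by
          rw [Finset.filter_eq_empty_iff]
          intro q _ h
          exact hnb h.1
        rw [h1, h2]
        simp
      · rw [if_neg hk, two_mul]
        refine add_le_add ?_ ?_
        · refine crossing_nbrs hn hP (s := 1) one_ne_zero ?_ (lns_nonempty hpc)
          intro q hq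
          rw [Finset.mem_filter] at hq
          obtain ⟨_, _, ⟨x, hx, h6⟩, _, h8⟩ := hDmem _ hq.2.2
          exact ⟨flag_edge (hR.off x hx) h6, by simpa using h8⟩
        · refine crossing_nbrs hn hP (s := -1) (by norm_num) ?_ (lns_nonempty hpc)
          intro q hq
          rw [Finset.mem_filter] at hq
          obtain ⟨_, _, _, ⟨x, hx, h6⟩, h8⟩ := hDmem _ hq.2.2
          exact ⟨flag_edge (hR.off x hx) h6, by simpa using h8⟩
    · have h0 : n * (n - 3) = ∑ _v : Fin n, (n - 3) := by simp
      rw [h0]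
      refine Finset.sum_le_sum fun v _ => ?_
      refine le_trans (add_le_add ?_ ?_) (hT12 v)
      · refine vertex_nbrs hn hP (v := v) (s := 1) one_ne_zero ?_ ?_
        · intro q hq
          rw [Finset.mem_filter] at hq
          obtain ⟨_, _, ⟨x, hx, h6⟩, _, h8⟩ := hDmem _ hq.2.2
          exact ⟨flag_edge (hR.off x hx) h6, by simpa using h8⟩
        · intro q hq w _ t ht htq
          rw [Finset.mem_filter] at hq
          obtain ⟨_, _, ⟨x, hx, h6⟩, ⟨x', hx', h7⟩, h8⟩ := hDmem _ hq.2.2
          simp only [T1, Finset.mem_filter, Finset.mem_univ, true_and]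
          refine ⟨?_, double_side (hR.off x hx) (hR.off x' hx') h6 h7 ht htq⟩
          have h1 : P w - P v = (1 / t) • (q - P v) := by
            rw [htq, smul_smul, one_div, inv_mul_cancel₀ ht.ne', one_smul]
          rw [h1]
          exact lex_smul h8 (by positivity)
      · refine vertex_nbrs hn hP (v := v) (s := -1) (by norm_num) ?_ ?_
        · intro q hq
          rw [Finset.mem_filter] at hq
          obtain ⟨_, _, _, ⟨x, hx, h6⟩, h8⟩ := hDmem _ hq.2.2
          exact ⟨flag_edge (hR.off x hx) h6, by simpa using h8⟩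
        · intro q hq w _ t ht htq
          rw [Finset.mem_filter] at hq
          obtain ⟨_, _, ⟨x, hx, h6⟩, ⟨x', hx', h7⟩, h8⟩ := hDmem _ hq.2.2
          simp only [T2, Finset.mem_filter, Finset.mem_univ, true_and]
          refine ⟨?_, double_side (hR.off x' hx') (hR.off x hx) h7 h6 ht htq⟩
          have h1 : P v - P w = (1 / t) • (P v - q) := by
            have h2 : P v - q = t • (P v - P w) := by
              rw [← neg_sub q (P v), htq, ← smul_neg, neg_sub]
            rw [h2, smul_smul, one_div, inv_mul_cancel₀ ht.ne', one_smul]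
          rw [h1]
          exact lex_smul h8 (by positivity)
  rw [Finset.sum_add_distrib]
  omega

end Pool.H47.Tri.B3
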