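import Mathlib
import Pool.Agent.H47.Tri.Skel

/-! # MP_c17047_co, module M: every convex drawing can be relabelled counterclockwise -/

set_option autoImplicit false

namespace Pool.H47.Tri.M

open Pool.H47.Tri Set

variable {n : ℕ}

theorem mem_hull3 {s : Set Pt} {x y z : Pt} (hx : x ∈ s) (hy : y ∈ s) (hz : z ∈ s)
    {a b c : ℝ} (ha : 0 ≤ a) (hb : 0 ≤ b) (hc : 0 ≤ c) (h : a + b + c = 1) :
    a • x + b • y + c • z ∈ convexHull ℝ s := by
  have := (convex_convexHull ℝ s).sum_mem (t := Finset.univ) (w := ![a, b, c]) (z := ![x, y, z])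
    (by intro i _; fin_cases i <;> simp [ha, hb, hc])
    (by simp [Fin.sum_univ_three, h])
    (by intro i _; fin_cases i <;> simp [subset_convexHull ℝ s hx, subset_convexHull ℝ s hy,
          subset_convexHull ℝ s hz])
  simpa [Fin.sum_univ_three] using this

theorem indep {P : Fin n → Pt} (hP : ConvexIndependent ℝ P) {j i k l : Fin n} (hi : j ≠ i)
    (hk : j ≠ k) (hl : j ≠ l) {a b c : ℝ} (ha : 0 ≤ a) (hb : 0 ≤ b) (hc : 0 ≤ c)
    (h : a + b + c = 1) : P j ≠ a • P i + b • P k + c • P l := by
  intro hj
  have h1 : P j ∈ convexHull ℝ (P '' {i, k, l}) := by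
    rw [hj]
    exact mem_hull3 (Set.mem_image_of_mem P (by simp)) (Set.mem_image_of_mem P (by simp))
      (Set.mem_image_of_mem P (by simp)) ha hb hc h
  have := hP _ _ h1
  simp only [Set.mem_insert_iff, Set.mem_singleton_iff] at this
  rcases this with h | h | h
  · exact hi h
  · exact hk h
  · exact hl h

/-- The angular key of a lexicographically positive vector. -/
noncomputable def ky (u : Pt) : ℝ := u.2 / (u.1 + |u.2|)

theorem den_pos {u : Pt} (hu : LexPos u) : 0 < u.1 + |u.2| := by
  rcases hu with h | ⟨h, h2⟩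
  · have := abs_nonneg u.2
    linarith
  · have := abs_pos.mpr h2.ne'
    linarith

theorem fst_nonneg {u : Pt} (hu : LexPos u) : 0 ≤ u.1 := by
  rcases hu with h | ⟨h, _⟩
  · exact h.le
  · exact h.ge

theorem ky_ge {u : Pt} (hu : LexPos u) : -1 ≤ ky u := by
  unfold ky
  rw [le_div_iff₀ (den_pos hu)]
  have := fst_nonneg hu
  have := neg_abs_le u.2
  linarith

theorem cross_pos {u w : Pt} (hu : LexPos u) (hw : LexPos w) (h : ky u < ky w) :
    0 < cross u w := by
  unfold ky at h
  rw [div_lt_div_iff₀ (den_pos hu) (den_pos hw)] at h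
  unfold cross
  have hu1 := fst_nonneg hu
  have hw1 := fst_nonneg hw
  rcases le_or_gt 0 u.2 with h1 | h1 <;> rcases le_or_gt 0 w.2 with h2 | h2
  · rw [abs_of_nonneg h1, abs_of_nonneg h2] at h
    nlinarith
  · rw [abs_of_nonneg h1, abs_of_neg h2] at h
    nlinarith [mul_nonneg h1 hw1, mul_nonneg hu1 (neg_nonneg.mpr h2.le),
      mul_nonneg h1 (neg_nonneg.mpr h2.le)]
  · rw [abs_of_neg h1, abs_of_nonneg h2] at h
    rcases hu with hu | ⟨hu, hu'⟩
    · rcases hw with hw | ⟨hw, hw'⟩
      · nlinarith [mul_pos hw (neg_pos.mpr h1), mul_nonneg hu1 h2]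
      · rw [hw]; nlinarith [mul_pos hu hw']
    · linarith
  · rw [abs_of_neg h1, abs_of_neg h2] at h
    nlinarith

theorem cross_zero {u w : Pt} (hu : LexPos u) (hw : LexPos w) (h : ky u = ky w) :
    cross u w = 0 := by
  unfold ky at h
  rw [div_eq_div_iff (den_pos hu).ne' (den_pos hw).ne'] at h
  unfold cross
  have hu1 := fst_nonneg hu
  have hw1 := fst_nonneg hw
  have hdu := den_pos hu
  have hdw := den_pos hw
  rcases le_or_gt 0 u.2 with h1 | h1 <;> rcases le_or_gt 0 w.2 with h2 | h2
  · rw [abs_of_nonneg h1, abs_of_nonneg h2] at h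
    nlinarith
  · exfalso
    have h3 : w.2 * (u.1 + |u.2|) < 0 := mul_neg_of_neg_of_pos h2 hdu
    have h4 : 0 ≤ u.2 * (w.1 + |w.2|) := mul_nonneg h1 hdw.le
    linarith
  · exfalso
    have h3 : u.2 * (w.1 + |w.2|) < 0 := mul_neg_of_neg_of_pos h1 hdw
    have h4 : 0 ≤ w.2 * (u.1 + |u.2|) := mul_nonneg h2 hdu.le
    linarith
  · rw [abs_of_neg h1, abs_of_neg h2] at h
    nlinarith

theorem exists_ccw {P : Fin n → Pt} (hP : IsConvexDrawing P) :
    ∃ σ : Equiv.Perm (Fin n), Ccw (P ∘ σ) := by
  rcases Nat.eq_zero_or_pos n with hn | hn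
  · subst hn
    exact ⟨1, fun i => i.elim0⟩
  have : Nonempty (Fin n) := ⟨⟨0, hn⟩⟩
  have hinj : Function.Injective P := hP.injective
  obtain ⟨i0, hi0⟩ := Finite.exists_min (fun i => toLex (P i))
  have hlex : ∀ i, i ≠ i0 → LexPos (P i - P i0) := by
    intro i hi
    have h1 := hi0 i
    rw [Prod.Lex.toLex_le_toLex] at h1
    rcases h1 with h1 | ⟨h1, h2⟩
    · left; simp; exact h1
    · right
      refine ⟨by simp [h1], ?_⟩
      have h3 : (P i0).2 ≠ (P i).2 := fun h => hi (hinj (Prod.ext h1.symm h.symm))
      simp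
      exact lt_of_le_of_ne h2 h3
  let key : Fin n → ℝ := fun i => if i = i0 then -2 else ky (P i - P i0)
  have hkey_ne : ∀ i, i ≠ i0 → key i = ky (P i - P i0) := fun i hi => if_neg hi
  have hkey_i0 : key i0 = -2 := if_pos rfl
  have hkey_ge : ∀ i, -2 ≤ key i := by
    intro i
    by_cases hi : i = i0
    · rw [hi, hkey_i0]
    · rw [hkey_ne i hi]
      linarith [ky_ge (hlex i hi)]
  -- three points with i0 are not collinear
  have hncol : ∀ i j, i ≠ i0 → j ≠ i0 → i ≠ j → cross (P i - P i0) (P j - P i0) ≠ 0 := by
    intro i j hi hj hij h0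
    have hui := hlex i hi
    have huj := hlex j hj
    obtain ⟨t, ht, htu⟩ : ∃ t : ℝ, 0 < t ∧ P j - P i0 = t • (P i - P i0) := by
      unfold cross at h0
      set u := P i - P i0 with hu
      set w := P j - P i0 with hw
      rcases hui with h1 | ⟨h1, h2⟩
      · rcases huj with h3 | ⟨h3, h4⟩
        · refine ⟨w.1 / u.1, div_pos h3 h1, ?_⟩
          apply Prod.ext
          · simp; field_simp
          · simp; field_simp; linarith
        · exfalso
          rw [h3] at h0
          nlinarith [mul_pos h1 h4]
      · rcases huj with h3 | ⟨h3, h4⟩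
        · exfalso
          rw [h1] at h0
          nlinarith [mul_pos h2 h3]
        · refine ⟨w.2 / u.2, div_pos h4 h2, ?_⟩
          apply Prod.ext
          · simp [h1, h3]
          · simp; field_simp
    rcases lt_trichotomy t 1 with h1 | h1 | h1
    · refine indep hP (j := j) (i := i0) (k := i) (l := i) hj hij.symm hij.symm
        (a := 1 - t) (b := t) (c := 0) (by linarith) ht.le le_rfl (by ring) ?_
      have : P j = t • (P i - P i0) + P i0 := by rw [← htu]; abel
      rw [this]
      module
    · rw [h1, one_smul] at htu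
      exact hij (hinj (by simpa using htu.symm))
    · refine indep hP (j := i) (i := i0) (k := j) (l := j) hi hij hij
        (a := 1 - 1 / t) (b := 1 / t) (c := 0) ?_ (by positivity) le_rfl (by ring) ?_
      · have : 1 / t < 1 := by rw [div_lt_one ht]; exact h1
        linarith
      · have h2 : P j = t • (P i - P i0) + P i0 := by rw [← htu]; abel
        rw [h2, smul_add, smul_smul, one_div, inv_mul_cancel₀ ht.ne']
        module
  have hkinj : Function.Injective key := by
    intro i j hij
    by_contra hne
    by_cases hi : i = i0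
    · subst hi
      rw [hkey_i0, hkey_ne j (Ne.symm hne)] at hij
      linarith [ky_ge (hlex j (Ne.symm hne))]
    · by_cases hj : j = i0
      · subst hj
        rw [hkey_i0, hkey_ne i hi] at hij
        linarith [ky_ge (hlex i hi)]
      · rw [hkey_ne i hi, hkey_ne j hj] at hij
        exact hncol i j hi hj hne (cross_zero (hlex i hi) (hlex j hj) hij)
  have hcross : ∀ i j, i ≠ i0 → j ≠ i0 → key i < key j →
      0 < cross (P i - P i0) (P j - P i0) := by
    intro i j hi hj hij
    rw [hkey_ne i hi, hkey_ne j hj] at hij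
    exact cross_pos (hlex i hi) (hlex j hj) hij
  refine ⟨Tuple.sort key, ?_⟩
  have hmono : StrictMono (key ∘ Tuple.sort key) :=
    (Tuple.monotone_sort key).strictMono_of_injective
      (hkinj.comp (Tuple.sort key).injective)
  intro a b c hab hbc
  simp only [Function.comp]
  set A := Tuple.sort key a with hA
  set B := Tuple.sort key b with hB
  set C := Tuple.sort key c with hC
  have hAB : key A < key B := hmono hab
  have hBC : key B < key C := hmono hbc
  have hB0 : B ≠ i0 := by
    intro h
    rw [h, hkey_i0] at hAB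
    linarith [hkey_ge A]
  have hC0 : C ≠ i0 := by
    intro h
    rw [h, hkey_i0] at hBC
    linarith [hkey_ge B]
  have hBneC : B ≠ C := fun h => by rw [h] at hBC; exact lt_irrefl _ hBC
  have hAneB : A ≠ B := fun h => by rw [h] at hAB; exact lt_irrefl _ hAB
  by_cases hA0 : A = i0
  · have := hcross B C hB0 hC0 hBC
    rw [hA0]
    unfold cross at this
    unfold orient
    simpa using this
  · have h1 := hcross A B hA0 hB0 hAB
    have h2 := hcross B C hB0 hC0 hBC
    have h3 := hcross A C hA0 hC0 (hAB.trans hBC)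
    by_contra hneg
    push Not at hneg
    have horient : orient (P A) (P B) (P C) = cross (P A - P i0) (P B - P i0)
        + cross (P B - P i0) (P C - P i0) - cross (P A - P i0) (P C - P i0) := by
      unfold orient cross
      simp
      ring
    set α := cross (P B - P i0) (P C - P i0) / cross (P A - P i0) (P C - P i0) with hα
    set β := cross (P A - P i0) (P B - P i0) / cross (P A - P i0) (P C - P i0) with hβ
    have hα0 : 0 < α := div_pos h2 h3
    have hβ0 : 0 < β := div_pos h1 h3
    have hsum : α + β ≤ 1 := by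
      rw [hα, hβ, ← add_div, div_le_one h3]
      linarith
    refine indep hP (j := B) (i := i0) (k := A) (l := C) hB0 hAneB.symm hBneC
        (a := 1 - α - β) (b := α) (c := β) (by linarith) hα0.le hβ0.le (by ring) ?_
    have hα' : α * cross (P A - P i0) (P C - P i0) = cross (P B - P i0) (P C - P i0) :=
      div_mul_cancel₀ _ h3.ne'
    have hβ' : β * cross (P A - P i0) (P C - P i0) = cross (P A - P i0) (P B - P i0) :=
      div_mul_cancel₀ _ h3.ne'
    have h3' := h3.ne'
    apply Prod.ext
    · apply mul_left_cancel₀ h3'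
      have : cross (P A - P i0) (P C - P i0) *
          ((1 - α - β) • P i0 + α • P A + β • P C).1 =
          cross (P A - P i0) (P C - P i0) * (P i0).1 +
          (α * cross (P A - P i0) (P C - P i0)) * ((P A).1 - (P i0).1) +
          (β * cross (P A - P i0) (P C - P i0)) * ((P C).1 - (P i0).1) := by
        simp
        ring
      rw [this, hα', hβ']
      unfold cross
      simp
      ring
    · apply mul_left_cancel₀ h3'
      have : cross (P A - P i0) (P C - P i0) *
          ((1 - α - β) • P i0 + α • P A + β • P C).2 =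
          cross (P A - P i0) (P C - P i0) * (P i0).2 +
          (α * cross (P A - P i0) (P C - P i0)) * ((P A).2 - (P i0).2) +
          (β * cross (P A - P i0) (P C - P i0)) * ((P C).2 - (P i0).2) := by
        simp
        ring
      rw [this, hα', hβ']
      unfold cross
      simp
      ring

end Pool.H47.Tri.M
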